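import Mathlib

/-!
# MP_ae0f86_nt, project FS: the exponents
-/

open Filter

namespace Pool.Agent.Lib.MP_ae0f86_nt.F

/-- `n / b^5 → ∞` implies `n / (b^4 log (n + 2)) → ∞`. -/
theorem j_five (n b : ℕ → ℕ)
    (h : Tendsto (fun k => (n k : ℝ) / (b k : ℝ) ^ 5) atTop atTop) :
    Tendsto (fun k => (n k : ℝ) / ((b k : ℝ) ^ 4 * Real.log ((n k : ℝ) + 2))) atTop atTop := by
  have h1 : Tendsto (fun k => ((n k : ℝ) / (b k : ℝ) ^ 5) ^ (4 / 5 : ℝ) / 10) atTop atTop := by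
    have h2 : Tendsto (fun x : ℝ => x ^ (4 / 5 : ℝ)) atTop atTop :=
      tendsto_rpow_atTop (by norm_num)
    exact (h2.comp h).atTop_div_const (by norm_num)
  refine tendsto_atTop_mono' _ ?_ h1
  filter_upwards [h.eventually_ge_atTop 1] with k hk
  have hb : (b k : ℝ) ≠ 0 := by
    intro h0
    rw [h0] at hk
    norm_num at hk
  have hb0 : (0 : ℝ) < b k := lt_of_le_of_ne (Nat.cast_nonneg _) (Ne.symm hb)
  have hn0 : (1 : ℝ) ≤ n k := by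
    have h3 : (n k : ℝ) ≠ 0 := by
      intro h0
      rw [h0] at hk
      norm_num at hk
    have h4 : n k ≠ 0 := by exact_mod_cast h3
    exact_mod_cast Nat.one_le_iff_ne_zero.2 h4
  have hn1 : (0 : ℝ) < n k := by linarith
  have hlog : Real.log ((n k : ℝ) + 2) ≤ 10 * (n k : ℝ) ^ (1 / 5 : ℝ) := by
    have h5 := Real.log_le_rpow_div (x := (n k : ℝ) + 2) (ε := 1 / 5) (by linarith) (by norm_num)
    have h6 : ((n k : ℝ) + 2) ^ (1 / 5 : ℝ) ≤ (32 * (n k : ℝ)) ^ (1 / 5 : ℝ) :=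
      Real.rpow_le_rpow (by linarith) (by linarith) (by norm_num)
    have h7 : (32 * (n k : ℝ)) ^ (1 / 5 : ℝ) = 2 * (n k : ℝ) ^ (1 / 5 : ℝ) := by
      rw [Real.mul_rpow (by norm_num) hn1.le]
      congr 1
      rw [show (32 : ℝ) = 2 ^ (5 : ℝ) by norm_num, ← Real.rpow_mul (by norm_num)]
      norm_num
    rw [h7] at h6
    calc Real.log ((n k : ℝ) + 2) ≤ ((n k : ℝ) + 2) ^ (1 / 5 : ℝ) / (1 / 5) := h5
      _ ≤ 2 * (n k : ℝ) ^ (1 / 5 : ℝ) / (1 / 5) := by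
        apply div_le_div_of_nonneg_right h6 (by norm_num)
      _ = 10 * (n k : ℝ) ^ (1 / 5 : ℝ) := by ring
  have hlog0 : 0 < Real.log ((n k : ℝ) + 2) := Real.log_pos (by linarith)
  have hr : (0 : ℝ) < (n k : ℝ) ^ (1 / 5 : ℝ) := Real.rpow_pos_of_pos hn1 _
  have h8 : ((n k : ℝ) / (b k : ℝ) ^ 5) ^ (4 / 5 : ℝ) =
      (n k : ℝ) ^ (4 / 5 : ℝ) / (b k : ℝ) ^ 4 := by
    rw [Real.div_rpow hn1.le (by positivity)]
    congr 1
    rw [← Real.rpow_natCast (b k : ℝ) 5, ← Real.rpow_mul hb0.le,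
      ← Real.rpow_natCast (b k : ℝ) 4]
    norm_num
  rw [h8]
  have h9 : (n k : ℝ) = (n k : ℝ) ^ (4 / 5 : ℝ) * (n k : ℝ) ^ (1 / 5 : ℝ) := by
    rw [← Real.rpow_add hn1]
    norm_num
  calc (n k : ℝ) ^ (4 / 5 : ℝ) / (b k : ℝ) ^ 4 / 10
      = (n k : ℝ) / ((b k : ℝ) ^ 4 * (10 * (n k : ℝ) ^ (1 / 5 : ℝ))) := by
        rw [eq_div_iff (by positivity)]
        conv_rhs => rw [h9]
        field_simp
    _ ≤ (n k : ℝ) / ((b k : ℝ) ^ 4 * Real.log ((n k : ℝ) + 2)) := by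
        apply div_le_div_of_nonneg_left hn1.le (by positivity)
        exact mul_le_mul_of_nonneg_left hlog (by positivity)

end Pool.Agent.Lib.MP_ae0f86_nt.F
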