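import Pool.Agent.Lib.MP_ae0f86_nt.GC.Defs

/-!
# MP_ae0f86_nt, project FS: generic cycles and polynomials with rational coefficients
-/

open CategoryTheory CategoryTheory.Limits MvPolynomial Opposite MonoidalCategory

universe v u

namespace Pool.Agent.Lib.MP_ae0f86_nt.F

noncomputable section

attribute [local instance] CategoryTheory.Abelian.hasFiniteBiproducts

/-- From a polynomial over `QBar` to a polynomial over `ℚ`. -/
theorem rat_poly {n : ℕ} (F : MvPolynomial (Fin n) QBar) (hF : F ≠ 0) :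
    ∃ p : MvPolynomial (Fin n) ℚ, p ≠ 0 ∧ ∀ x : Fin n → ℚ, eval x p ≠ 0 →
      eval (fun i => algebraMap ℚ QBar (x i)) F ≠ 0 := by
  obtain ⟨m, hm⟩ := MvPolynomial.ne_zero_iff.1 hF
  obtain ⟨φ, hφ⟩ : ∃ φ : Module.Dual ℚ QBar, φ (F.coeff m) ≠ 0 := by
    by_contra h
    push Not at h
    exact hm ((Module.forall_dual_apply_eq_zero_iff ℚ _).1 h)
  let p : MvPolynomial (Fin n) ℚ := ∑ d ∈ F.support, monomial d (φ (F.coeff d))
  have hp : ∀ x : Fin n → ℚ, φ (eval (fun i => algebraMap ℚ QBar (x i)) F) = eval x p := by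
    intro x
    rw [MvPolynomial.eval_eq', map_sum]
    show _ = eval x (∑ d ∈ F.support, monomial d (φ (F.coeff d)))
    rw [map_sum]
    refine Finset.sum_congr rfl fun d _ => ?_
    have h1 : F.coeff d * ∏ i, (algebraMap ℚ QBar (x i)) ^ d i =
        (∏ i, x i ^ d i) • F.coeff d := by
      rw [Algebra.smul_def, map_prod, mul_comm]
      simp only [map_pow]
    rw [h1, map_smul, eval_monomial, smul_eq_mul, mul_comm, Finsupp.prod_fintype]
    intro i
    exact pow_zero _
  have hcoeff : p.coeff m = φ (F.coeff m) := by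
    show (∑ d ∈ F.support, monomial d (φ (F.coeff d))).coeff m = _
    rw [MvPolynomial.coeff_sum, Finset.sum_eq_single m]
    · rw [coeff_monomial, if_pos rfl]
    · intro d _ hd
      rw [coeff_monomial, if_neg hd]
    · intro h
      rw [MvPolynomial.notMem_support_iff.1 h, map_zero, coeff_monomial, if_pos rfl]
  refine ⟨p, fun h => ?_, fun x hx h => ?_⟩
  · rw [h, coeff_zero] at hcoeff
    exact hφ hcoeff.symm
  · rw [← hp, h, map_zero] at hx
    exact hx rfl

variable {A : Type u} [Category.{v} A] [Abelian A] [MonoidalCategory A] [SymmetricCategory A]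

/-- Generic cycles, with a polynomial over `ℚ`. -/
theorem generic_poly (HB : A ⥤ ModuleCat.{0} ℚ) [FibreFunctor HB] (W : A)
    (P : BDual HB W → Prop) (h : ForGeneric HB W P) :
    ∃ p : MvPolynomial (HB.obj W) ℚ, (∃ γ : BDual HB W, eval (fun x => γ x) p ≠ 0) ∧
      ∀ γ : BDual HB W, eval (fun x => γ x) p ≠ 0 → P γ := by
  obtain ⟨F, hF, hP⟩ := h
  obtain ⟨p, hp, hpF⟩ := rat_poly F hF
  have key : ∀ γ : BDual HB W, eval (fun x => γ x)
      (rename (fun i => (Module.finBasis ℚ (HB.obj W)) i) p) =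
      eval (fun i => γ ((Module.finBasis ℚ (HB.obj W)) i)) p := by
    intro γ
    rw [eval_rename]
    rfl
  refine ⟨rename (fun i => (Module.finBasis ℚ (HB.obj W)) i) p, ?_, fun γ hγ => ?_⟩
  · obtain ⟨x, hx⟩ : ∃ x, eval x p ≠ 0 := by
      by_contra h0
      push Not at h0
      exact hp (MvPolynomial.funext fun x => by rw [h0 x, map_zero])
    refine ⟨(Module.finBasis ℚ (HB.obj W)).constr ℚ x, ?_⟩
    rw [key]
    have : (fun i => ((Module.finBasis ℚ (HB.obj W)).constr ℚ x : BDual HB W)
        ((Module.finBasis ℚ (HB.obj W)) i)) = x := by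
      funext i
      exact (Module.finBasis ℚ (HB.obj W)).constr_basis ℚ x i
    rw [this]
    exact hx
  · rw [key] at hγ
    exact hP γ (hpF _ hγ)

end

end Pool.Agent.Lib.MP_ae0f86_nt.F
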