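import Pool.Agent.Lib.MP_ae0f86_nt.F.StmJ

/-!
# MP_ae0f86_nt, project FS, piece art: Artin vanishing for the complement of the propagators
-/

open CategoryTheory CategoryTheory.Limits MvPolynomial Opposite MonoidalCategory

universe v u

namespace Pool.Agent.Lib.MP_ae0f86_nt.F

noncomputable section

attribute [local instance] CategoryTheory.Abelian.hasFiniteBiproducts

variable {A : Type u} [Category.{v} A] [Abelian A] [MonoidalCategory A]

theorem art_transport {k : Type} [Field k] (F : (AffPair k)ᵒᵖ ⥤ A) {ι : Type} [Finite ι]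
    {X X' : Set (ι → k)} (h : X = X') (hX : IsAlg X) (hX' : IsAlg X')
    (h0 : IsZero (F.obj (op (AffPair.abs hX')))) : IsZero (F.obj (op (AffPair.abs hX))) := by
  subst h
  exact h0

theorem art_smoothOn {k : Type} [Field k] {ι : Type} (g : MvPolynomial ι k) :
    SmoothOn ([] : List (MvPolynomial ι k)) g := by
  intro x _ _
  haveI : IsEmpty (Fin ([] : List (MvPolynomial ι k)).length) := by
    rw [List.length_nil]
    infer_instance
  exact linearIndependent_empty_type

theorem j_art (T : CohTheoryL QBar A) (coord : S_jcoord) (usci : S_usci) : S_jart T := by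
  intro G i hi
  obtain ⟨g, ⟨e⟩⟩ := coord (k := QBar) G
  have h1 : SmoothCI (ul ([] : List (MvPolynomial (Fin G.loops × Fin 4) QBar)) g) :=
    (usci [] g (art_smoothOn g)).1
  have hc : Nat.card ((Fin G.loops × Fin 4) ⊕ Unit) = 4 * G.loops + 1 := by
    rw [Nat.card_sum, Nat.card_prod, Nat.card_fin, Nat.card_fin, Nat.card_unique, mul_comm]
  have hl : (ul ([] : List (MvPolynomial (Fin G.loops × Fin 4) QBar)) g).length = 1 := rfl
  have h2 : IsZero ((T.h i).obj (op (AffPair.abs
      (zs_alg (ul ([] : List (MvPolynomial (Fin G.loops × Fin 4) QBar)) g))))) :=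
    T.artin i _ h1 (by
      rw [hc, hl]
      push_cast
      linarith)
  have h3 : IsZero ((T.h i).obj (op (AffPair.abs
      (us_alg ([] : List (MvPolynomial (Fin G.loops × Fin 4) QBar)) g)))) :=
    art_transport (T.h i) (us_eq _ g) _ _ h2
  exact h3.of_iso ((T.h i).mapIso e.symm.op)

end

end Pool.Agent.Lib.MP_ae0f86_nt.F
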