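import Pool.Agent.Lib.MP_ae0f86_nt.F.StmJ

/-!
# MP_ae0f86_nt, project FS: cofinality of the sequence of the joins
-/

open CategoryTheory CategoryTheory.Limits MvPolynomial Opposite MonoidalCategory

universe v u

namespace Pool.Agent.Lib.MP_ae0f86_nt.F

noncomputable section

attribute [local instance] CategoryTheory.Abelian.hasFiniteBiproducts

variable {A : Type u} [Category.{v} A] [Abelian A] [MonoidalCategory A]

private lemma cof_zero_right [MonoidalPreadditive A] {X Y : A} (h : IsZero Y) :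
    IsZero (X ⊗ Y) := by
  rw [IsZero.iff_id_eq_zero] at h ⊢
  rw [← MonoidalCategory.whiskerLeft_id, h, MonoidalPreadditive.whiskerLeft_zero]

private lemma cof_zero_left [MonoidalPreadditive A] {X Y : A} (h : IsZero X) :
    IsZero (X ⊗ Y) := by
  rw [IsZero.iff_id_eq_zero] at h ⊢
  rw [← MonoidalCategory.id_whiskerRight, h, MonoidalPreadditive.zero_whiskerRight]

omit [MonoidalCategory A] in
private lemma cof_subquot_zero {X Y : A} (h : IsSubquot X Y) (hY : IsZero Y) : IsZero X := by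
  obtain ⟨N, i, p, hi, hp⟩ := h
  have h1 : IsZero N := by
    rw [IsZero.iff_id_eq_zero]
    rw [← cancel_mono i]
    exact hY.eq_of_tgt _ _
  rw [IsZero.iff_id_eq_zero, ← cancel_epi p]
  exact h1.eq_of_src _ _

theorem j_cof [MonoidalPreadditive A] [SymmetricCategory A] (T : CohTheoryL QBar A)
    (geo : S_geo T) (top : S_jtop T) (equiv : S_jequiv) (subq : S_subq A) : S_jcof T := by
  intro hK hten hexact H hH hall N
  obtain ⟨htrans, -, hisoq, -, -, -⟩ := subq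
  have hone : ¬ IsZero (𝟙_ A) := fun h =>
    (hH 0).2 (IsZero.of_iso (cof_zero_right h) (ρ_ ((H 0).top T.toCohTheory)).symm)
  have hL : ¬ IsZero T.L := fun h =>
    hone (IsZero.of_iso (cof_zero_left (Y := T.tate) h) T.tateIso.symm)
  have hpow : ∀ e : ℕ, ¬ IsZero (tpow T.L e) := by
    intro e
    induction e with
    | zero => exact hone
    | succ e ih => exact hten _ _ ih hL
  by_cases hN : IsZero N
  · refine ⟨0, fun k _ => ⟨𝟙_ A, hone, ?_⟩⟩
    have hz : IsZero (N ⊗ 𝟙_ A) := cof_zero_left hN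
    refine ⟨N ⊗ 𝟙_ A, 0, 𝟙 _, ⟨fun f g _ => hz.eq_of_tgt f g⟩, inferInstance⟩
  obtain ⟨⟨e, G, hirr, hsq⟩, -⟩ := geo N
  have hNe : ¬ IsZero (N ⊗ tpow T.L e) := hten _ _ hN (hpow e)
  have hG : ¬ IsZero (G.top T.toCohTheory) := fun h => hNe (cof_subquot_zero hsq h)
  obtain ⟨j, hj⟩ := hall G hirr hG
  obtain ⟨hloops, ⟨hiso⟩⟩ := equiv (k := QBar) G (H j).toFeynman hj
  have hGH : Nonempty (G.top T.toCohTheory ≅ (H j).top T.toCohTheory) := by
    unfold Feynman.top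
    rw [hloops]
    exact ⟨(T.h (4 * (H j).loops)).mapIso hiso.symm.op⟩
  obtain ⟨iGH⟩ := hGH
  have hpj : ∀ k, ¬ IsZero ((Rooted.partialJoin H k).top T.toCohTheory) := by
    intro k
    induction k with
    | zero => exact (hH 0).2
    | succ k ih =>
      obtain ⟨i⟩ := top hK (Rooted.partialJoin H k) (H (k + 1))
      exact fun h => hten _ _ ih (hH (k + 1)).2 (IsZero.of_iso h i.symm)
  have hR : ∀ k, j ≤ k → ∃ R : A, ¬ IsZero R ∧
      Nonempty ((Rooted.partialJoin H k).top T.toCohTheory ≅ (H j).top T.toCohTheory ⊗ R) := by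
    intro k hk
    induction k, hk using Nat.le_induction with
    | base =>
      rcases j with _ | j
      · exact ⟨𝟙_ A, hone, ⟨(ρ_ ((H 0).top T.toCohTheory)).symm⟩⟩
      · obtain ⟨i⟩ := top hK (Rooted.partialJoin H j) (H (j + 1))
        exact ⟨(Rooted.partialJoin H j).top T.toCohTheory, hpj j, ⟨i ≪≫ β_ _ _⟩⟩
    | succ k hk ih =>
      obtain ⟨R, hR0, ⟨f⟩⟩ := ih
      obtain ⟨i⟩ := top hK (Rooted.partialJoin H k) (H (k + 1))
      refine ⟨R ⊗ (H (k + 1)).top T.toCohTheory, hten _ _ hR0 (hH (k + 1)).2, ⟨?_⟩⟩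
      exact i ≪≫ whiskerRightIso f _ ≪≫ α_ _ _ _
  refine ⟨j, fun k hk => ?_⟩
  obtain ⟨R, hR0, ⟨f⟩⟩ := hR k hk
  refine ⟨tpow T.L e ⊗ R, hten _ _ (hpow e) hR0, ?_⟩
  refine htrans _ _ _ (hisoq _ _ (α_ N (tpow T.L e) R).symm) ?_
  have h1 : IsSubquot ((N ⊗ tpow T.L e) ⊗ R) (G.top T.toCohTheory ⊗ R) := by
    obtain ⟨N', i, p, hi, hp⟩ := hsq
    exact ⟨N' ⊗ R, i ▷ R, p ▷ R, (hexact _ _ R i).1 hi, (hexact _ _ R p).2 hp⟩
  refine htrans _ _ _ h1 (hisoq _ _ (whiskerRightIso iGH R ≪≫ f.symm))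

end

end Pool.Agent.Lib.MP_ae0f86_nt.F
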