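import Pool.Agent.Lib.MP_ae0f86_nt.F.StmJ

/-!
# MP_ae0f86_nt, project FS, piece compl: the complement of the join is the product
-/

open CategoryTheory CategoryTheory.Limits MvPolynomial Opposite MonoidalCategory

universe v u

namespace Pool.Agent.Lib.MP_ae0f86_nt.F

noncomputable section

attribute [local instance] CategoryTheory.Abelian.hasFiniteBiproducts

section

variable {k : Type} [Field k] (G G' : Rooted)

private def compl_r1 : G.E × Fin 4 → (G.join G').E × Fin 4 := fun a => (Sum.inl a.1, a.2)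

private def compl_r2 : G'.E × Fin 4 → (G.join G').E × Fin 4 := fun a => (Sum.inr a.1, a.2)

private theorem compl_den1 (x : (G.join G').E × Fin 4 → k) (e : G.E) :
    eval x ((G.join G').den k (Sum.inl e)) = eval (x ∘ compl_r1 G G') (G.den k e) := by
  have h : (G.join G').a (Sum.inl e) = G.a e := rfl
  simp [Feynman.den, sq, compl_r1, h]

private theorem compl_den2 (x : (G.join G').E × Fin 4 → k) (e : G'.E) :
    eval x ((G.join G').den k (Sum.inr e)) = eval (x ∘ compl_r2 G G') (G'.den k e) := by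
  have h : (G.join G').a (Sum.inr e) = G'.a e := rfl
  simp [Feynman.den, sq, compl_r2, h]

private theorem compl_prod (x : (G.join G').E × Fin 4 → k) :
    ∏ e, eval x ((G.join G').den k e) =
      (∏ e, eval (x ∘ compl_r1 G G') (G.den k e)) *
        ∏ e, eval (x ∘ compl_r2 G G') (G'.den k e) := by
  refine (Fintype.prod_sum_type (fun e : G.E ⊕ G'.E => eval x ((G.join G').den k e))).trans ?_
  congr 1
  · exact Finset.prod_congr rfl fun e _ => compl_den1 G G' x e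
  · exact Finset.prod_congr rfl fun e _ => compl_den2 G G' x e

private theorem compl_mom (cons : S_jcons) (x : (G.join G').E × Fin 4 → k) :
    x ∈ (G.join G').momenta k ↔
      x ∘ compl_r1 G G' ∈ G.momenta k ∧ x ∘ compl_r2 G G' ∈ G'.momenta k := by
  constructor
  · intro h
    exact ⟨fun j => ((cons G G' _).1 (h j)).1, fun j => ((cons G G' _).1 (h j)).2⟩
  · intro h j
    exact (cons G G' _).2 ⟨h.1 j, h.2 j⟩

private theorem compl_mem (cons : S_jcons) (z : (G.join G').E × Fin 4 ⊕ Unit → k) :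
    z ∈ (G.join G').complSet k ↔
      ((z ∘ Sum.inl) ∘ compl_r1 G G' ∈ G.momenta k ∧
        (z ∘ Sum.inl) ∘ compl_r2 G G' ∈ G'.momenta k) ∧
      z (Sum.inr ()) * ((∏ e, eval ((z ∘ Sum.inl) ∘ compl_r1 G G') (G.den k e)) *
        ∏ e, eval ((z ∘ Sum.inl) ∘ compl_r2 G G') (G'.den k e)) = 1 := by
  rw [← compl_mom G G' cons, ← compl_prod]
  exact Iff.rfl

/-- from the join to the product -/
private def compl_f (z : (G.join G').E × Fin 4 ⊕ Unit → k) :
    ((G.E × Fin 4) ⊕ Unit) ⊕ ((G'.E × Fin 4) ⊕ Unit) → k :=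
  Sum.elim
    (Sum.elim (fun a => z (Sum.inl (compl_r1 G G' a)))
      (fun _ => z (Sum.inr ()) * ∏ e, eval ((z ∘ Sum.inl) ∘ compl_r2 G G') (G'.den k e)))
    (Sum.elim (fun a => z (Sum.inl (compl_r2 G G' a)))
      (fun _ => z (Sum.inr ()) * ∏ e, eval ((z ∘ Sum.inl) ∘ compl_r1 G G') (G.den k e)))

private def compl_fp : ((G.E × Fin 4) ⊕ Unit) ⊕ ((G'.E × Fin 4) ⊕ Unit) →
    MvPolynomial ((G.join G').E × Fin 4 ⊕ Unit) k :=
  Sum.elim
    (Sum.elim (fun a => MvPolynomial.X (Sum.inl (compl_r1 G G' a)))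
      (fun _ => MvPolynomial.X (Sum.inr ()) *
        rename (Sum.inl ∘ compl_r2 G G') (∏ e, G'.den k e)))
    (Sum.elim (fun a => MvPolynomial.X (Sum.inl (compl_r2 G G' a)))
      (fun _ => MvPolynomial.X (Sum.inr ()) *
        rename (Sum.inl ∘ compl_r1 G G') (∏ e, G.den k e)))

private theorem compl_fp_eval (z : (G.join G').E × Fin 4 ⊕ Unit → k)
    (j : ((G.E × Fin 4) ⊕ Unit) ⊕ ((G'.E × Fin 4) ⊕ Unit)) :
    compl_f G G' z j = eval z (compl_fp G G' j) := by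
  rcases j with (a | a) | (a | a)
  · simp [compl_f, compl_fp]
  · simp only [compl_f, compl_fp, Sum.elim_inl, Sum.elim_inr, map_mul, eval_X, eval_rename,
      map_prod, Function.comp_assoc]
  · simp [compl_f, compl_fp]
  · simp only [compl_f, compl_fp, Sum.elim_inr, map_mul, eval_X, eval_rename,
      map_prod, Function.comp_assoc]

/-- from the product to the join -/
private def compl_g (y : ((G.E × Fin 4) ⊕ Unit) ⊕ ((G'.E × Fin 4) ⊕ Unit) → k) :
    (G.join G').E × Fin 4 ⊕ Unit → k :=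
  Sum.elim (fun a => Sum.elim (fun e => y (Sum.inl (Sum.inl (e, a.2))))
      (fun e => y (Sum.inr (Sum.inl (e, a.2)))) a.1)
    (fun _ => y (Sum.inl (Sum.inr ())) * y (Sum.inr (Sum.inr ())))

private def compl_gp : (G.join G').E × Fin 4 ⊕ Unit →
    MvPolynomial (((G.E × Fin 4) ⊕ Unit) ⊕ ((G'.E × Fin 4) ⊕ Unit)) k :=
  Sum.elim (fun a => Sum.elim (fun e => MvPolynomial.X (Sum.inl (Sum.inl (e, a.2))))
      (fun e => MvPolynomial.X (Sum.inr (Sum.inl (e, a.2)))) a.1)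
    (fun _ => MvPolynomial.X (Sum.inl (Sum.inr ())) * MvPolynomial.X (Sum.inr (Sum.inr ())))

private theorem compl_gp_eval (y : ((G.E × Fin 4) ⊕ Unit) ⊕ ((G'.E × Fin 4) ⊕ Unit) → k)
    (j : (G.join G').E × Fin 4 ⊕ Unit) : compl_g G G' y j = eval y (compl_gp G G' j) := by
  rcases j with ⟨e | e, j⟩ | a
  · simp [compl_g, compl_gp]
  · simp [compl_g, compl_gp]
  · simp [compl_g, compl_gp]

end

/-- **FS compl.** -/
theorem j_compl (cons : S_jcons) : S_jcompl := by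
  intro k _ G G' Y hY hYe
  subst hYe
  let f : AffPair.abs ((G.join G').complSet_alg k) ⟶ AffPair.abs hY :=
    ⟨fun z => ⟨compl_f G G' z.1, by
      obtain ⟨⟨h1, h2⟩, h3⟩ := (compl_mem G G' cons z.1).1 z.2
      refine ⟨⟨h1, ?_⟩, h2, ?_⟩
      · refine Eq.trans ?_ h3
        change z.1 (Sum.inr ()) *
          (∏ e, eval ((z.1 ∘ Sum.inl) ∘ compl_r2 G G') (G'.den k e)) *
          (∏ e, eval ((z.1 ∘ Sum.inl) ∘ compl_r1 G G') (G.den k e)) = _
        ring
      · refine Eq.trans ?_ h3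
        change z.1 (Sum.inr ()) *
          (∏ e, eval ((z.1 ∘ Sum.inl) ∘ compl_r1 G G') (G.den k e)) *
          (∏ e, eval ((z.1 ∘ Sum.inl) ∘ compl_r2 G G') (G'.den k e)) = _
        ring⟩, ⟨compl_fp G G', fun x j => compl_fp_eval G G' x.1 j⟩, fun x hx => hx.elim⟩
  let g : AffPair.abs hY ⟶ AffPair.abs ((G.join G').complSet_alg k) :=
    ⟨fun y => ⟨compl_g G G' y.1, by
      obtain ⟨⟨h1, h2⟩, h3, h4⟩ := y.2
      refine (compl_mem G G' cons _).2 ⟨⟨h1, h3⟩, ?_⟩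
      change y.1 (Sum.inl (Sum.inr ())) * y.1 (Sum.inr (Sum.inr ())) *
        ((∏ e, eval ((y.1 ∘ Sum.inl) ∘ Sum.inl) (G.den k e)) *
        (∏ e, eval ((y.1 ∘ Sum.inr) ∘ Sum.inl) (G'.den k e))) = 1
      have h5 : y.1 (Sum.inl (Sum.inr ())) *
        (∏ e, eval ((y.1 ∘ Sum.inl) ∘ Sum.inl) (G.den k e)) = 1 := h2
      have h6 : y.1 (Sum.inr (Sum.inr ())) *
        (∏ e, eval ((y.1 ∘ Sum.inr) ∘ Sum.inl) (G'.den k e)) = 1 := h4
      linear_combination (y.1 (Sum.inr (Sum.inr ())) *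
        (∏ e, eval ((y.1 ∘ Sum.inr) ∘ Sum.inl) (G'.den k e))) * h5 + h6⟩,
      ⟨compl_gp G G', fun x j => compl_gp_eval G G' x.1 j⟩, fun x hx => hx.elim⟩
  refine ⟨⟨f, g, AffPair.hom_ext _ _ fun z => ?_, AffPair.hom_ext _ _ fun y => ?_⟩⟩
  · obtain ⟨_, h3⟩ := (compl_mem G G' cons z.1).1 z.2
    change compl_g G G' (compl_f G G' z.1) = z.1
    funext j
    rcases j with ⟨e | e, j⟩ | ⟨⟩
    · rfl
    · rfl
    · change z.1 (Sum.inr ()) *
          (∏ e, eval ((z.1 ∘ Sum.inl) ∘ compl_r2 G G') (G'.den k e)) *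
          (z.1 (Sum.inr ()) *
          (∏ e, eval ((z.1 ∘ Sum.inl) ∘ compl_r1 G G') (G.den k e))) = z.1 (Sum.inr ())
      linear_combination z.1 (Sum.inr ()) * h3
  · obtain ⟨⟨_, h2⟩, _, h4⟩ := y.2
    have h5 : y.1 (Sum.inl (Sum.inr ())) *
      (∏ e, eval ((y.1 ∘ Sum.inl) ∘ Sum.inl) (G.den k e)) = 1 := h2
    have h6 : y.1 (Sum.inr (Sum.inr ())) *
      (∏ e, eval ((y.1 ∘ Sum.inr) ∘ Sum.inl) (G'.den k e)) = 1 := h4
    change compl_f G G' (compl_g G G' y.1) = y.1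
    funext j
    rcases j with (a | ⟨⟩) | (a | ⟨⟩)
    · rfl
    · change y.1 (Sum.inl (Sum.inr ())) * y.1 (Sum.inr (Sum.inr ())) *
        (∏ e, eval ((y.1 ∘ Sum.inr) ∘ Sum.inl) (G'.den k e)) = y.1 (Sum.inl (Sum.inr ()))
      linear_combination y.1 (Sum.inl (Sum.inr ())) * h6
    · rfl
    · change y.1 (Sum.inl (Sum.inr ())) * y.1 (Sum.inr (Sum.inr ())) *
        (∏ e, eval ((y.1 ∘ Sum.inl) ∘ Sum.inl) (G.den k e)) = y.1 (Sum.inr (Sum.inr ()))
      linear_combination y.1 (Sum.inr (Sum.inr ())) * h5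

end

end Pool.Agent.Lib.MP_ae0f86_nt.F
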