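import Pool.Agent.Lib.MP_ae0f86_nt.F.StmJ

/-!
# MP_ae0f86_nt, [FS cons]: conservation on the join (helper98)
-/

open CategoryTheory CategoryTheory.Limits MvPolynomial Opposite MonoidalCategory

universe v u

namespace Pool.Agent.Lib.MP_ae0f86_nt.F

noncomputable section

/-- The sum over the vertices. -/
private theorem jcons_total (G : Feynman) {R : Type} [CommRing R] (c : G.E → R) (f : G.E → G.V) :
    (∑ v, ∑ e, if f e = v then c e else 0) = ∑ e, c e := by
  rw [Finset.sum_comm]
  refine Finset.sum_congr rfl fun e _ => ?_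
  rw [Finset.sum_ite_eq]
  simp

/-- Conservation at all vertices but one. -/
private theorem jcons_root (G : Feynman) {R : Type} [CommRing R] (c : G.E → R) (r : G.V)
    (h : ∀ v, v ≠ r → (∑ e, if G.tgt e = v then c e else 0) = ∑ e, if G.src e = v then c e else 0) :
    G.Conserved c := by
  intro v
  by_cases hv : v = r
  · subst hv
    have h1 : (∑ w, ((∑ e, if G.tgt e = w then c e else 0) -
        ∑ e, if G.src e = w then c e else 0)) = 0 := by
      rw [Finset.sum_sub_distrib, jcons_total, jcons_total, sub_self]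
    rw [Finset.sum_eq_single v] at h1
    · exact sub_eq_zero.1 h1
    · intro w _ hw
      rw [h w hw, sub_self]
    · intro hw
      exact absurd (Finset.mem_univ v) hw
  · exact h v hv

/-- The sums over the edges of the join. -/
private theorem jcons_sum (G G' : Rooted) {R : Type} [CommRing R] (c : G.E ⊕ G'.E → R)
    (f : (G.join G').E → (G.join G').V) (v : (G.join G').V) :
    (∑ e, if f e = v then c e else 0) =
      (∑ e : G.E, if f (Sum.inl e) = v then c (Sum.inl e) else 0) +
        ∑ e : G'.E, if f (Sum.inr e) = v then c (Sum.inr e) else 0 :=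
  Fintype.sum_sum_type _

private theorem jcons_ite {R : Type} [CommRing R] {p q : Prop} [Decidable p] [Decidable q] (x : R)
    (h : p ↔ q) : (if p then x else 0) = if q then x else 0 := by
  by_cases hq : q
  · rw [if_pos hq, if_pos (h.2 hq)]
  · rw [if_neg hq, if_neg (fun hp => hq (h.1 hp))]

theorem j_cons : S_jcons := by
  intro G G' R _ c
  -- the four sums at the vertices `(x, r')`, `(r, y)`
  have e1 : ∀ (f : G.E → G.V) (x : G.V) (y : G'.V) (h : x = G.root ∨ y = G'.root) (e : G.E),
      ((⟨(f e, G'.root), Or.inr rfl⟩ : (G.join G').V) = ⟨(x, y), h⟩) ↔ (f e = x ∧ G'.root = y) := by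
    intro f x y h e
    constructor
    · intro he
      have := congrArg Subtype.val he
      exact Prod.mk.inj this
    · rintro ⟨rfl, rfl⟩
      rfl
  have e2 : ∀ (f : G'.E → G'.V) (x : G.V) (y : G'.V) (h : x = G.root ∨ y = G'.root) (e : G'.E),
      ((⟨(G.root, f e), Or.inl rfl⟩ : (G.join G').V) = ⟨(x, y), h⟩) ↔ (G.root = x ∧ f e = y) := by
    intro f x y h e
    constructor
    · intro he
      have := congrArg Subtype.val he
      exact Prod.mk.inj this
    · rintro ⟨rfl, rfl⟩
      rfl
  -- the first sums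
  have s1 : ∀ (f : G.E → G.V) (x : G.V) (h : x = G.root ∨ G'.root = G'.root),
      (∑ e : G.E, if (⟨(f e, G'.root), Or.inr rfl⟩ : (G.join G').V) = ⟨(x, G'.root), h⟩
        then c (Sum.inl e) else 0) = ∑ e, if f e = x then c (Sum.inl e) else 0 := by
    intro f x h
    refine Finset.sum_congr rfl fun e _ => jcons_ite _ ?_
    rw [e1]
    simp
  have s1' : ∀ (f : G.E → G.V) (x : G.V) (y : G'.V) (h : x = G.root ∨ y = G'.root), y ≠ G'.root →
      (∑ e : G.E, if (⟨(f e, G'.root), Or.inr rfl⟩ : (G.join G').V) = ⟨(x, y), h⟩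
        then c (Sum.inl e) else 0) = 0 := by
    intro f x y h hy
    refine Finset.sum_eq_zero fun e _ => if_neg ?_
    rw [e1]
    exact fun h2 => hy h2.2.symm
  have s2 : ∀ (f : G'.E → G'.V) (y : G'.V) (h : G.root = G.root ∨ y = G'.root),
      (∑ e : G'.E, if (⟨(G.root, f e), Or.inl rfl⟩ : (G.join G').V) = ⟨(G.root, y), h⟩
        then c (Sum.inr e) else 0) = ∑ e, if f e = y then c (Sum.inr e) else 0 := by
    intro f y h
    refine Finset.sum_congr rfl fun e _ => jcons_ite _ ?_
    rw [e2]
    simp
  have s2' : ∀ (f : G'.E → G'.V) (x : G.V) (y : G'.V) (h : x = G.root ∨ y = G'.root), x ≠ G.root →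
      (∑ e : G'.E, if (⟨(G.root, f e), Or.inl rfl⟩ : (G.join G').V) = ⟨(x, y), h⟩
        then c (Sum.inr e) else 0) = 0 := by
    intro f x y h hx
    refine Finset.sum_eq_zero fun e _ => if_neg ?_
    rw [e2]
    exact fun h2 => hx h2.1.symm
  constructor
  · intro hc
    constructor
    · refine jcons_root G.toFeynman _ G.root fun x hx => ?_
      have h := hc ⟨(x, G'.root), Or.inr rfl⟩
      rw [jcons_sum, jcons_sum] at h
      have h1 := s1 G.tgt x (Or.inr rfl)
      have h2 := s1 G.src x (Or.inr rfl)
      have h3 := s2' G'.tgt x G'.root (Or.inr rfl) hx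
      have h4 := s2' G'.src x G'.root (Or.inr rfl) hx
      refine Eq.trans h1.symm ?_
      refine Eq.trans (add_zero _).symm ?_
      refine Eq.trans (congrArg₂ (· + ·) rfl h3.symm) ?_
      refine Eq.trans h ?_
      refine Eq.trans (congrArg₂ (· + ·) h2 h4) ?_
      exact add_zero _
    · refine jcons_root G'.toFeynman _ G'.root fun y hy => ?_
      have h := hc ⟨(G.root, y), Or.inl rfl⟩
      rw [jcons_sum, jcons_sum] at h
      have h1 := s2 G'.tgt y (Or.inl rfl)
      have h2 := s2 G'.src y (Or.inl rfl)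
      have h3 := s1' G.tgt G.root y (Or.inl rfl) hy
      have h4 := s1' G.src G.root y (Or.inl rfl) hy
      refine Eq.trans h1.symm ?_
      refine Eq.trans (zero_add _).symm ?_
      refine Eq.trans (congrArg₂ (· + ·) h3.symm rfl) ?_
      refine Eq.trans h ?_
      refine Eq.trans (congrArg₂ (· + ·) h4 h2) ?_
      exact zero_add _
  · rintro ⟨hc, hc'⟩ ⟨⟨x, y⟩, h⟩
    rw [jcons_sum, jcons_sum]
    refine congrArg₂ (· + ·) ?_ ?_
    · by_cases hy : y = G'.root
      · subst hy
        exact (s1 G.tgt x h).trans ((hc x).trans (s1 G.src x h).symm)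
      · exact (s1' G.tgt x y h hy).trans (s1' G.src x y h hy).symm
    · by_cases hx : x = G.root
      · subst hx
        exact (s2 G'.tgt y h).trans ((hc' y).trans (s2 G'.src y h).symm)
      · exact (s2' G'.tgt x y h hx).trans (s2' G'.src x y h hx).symm

end

end Pool.Agent.Lib.MP_ae0f86_nt.F
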