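import Pool.Agent.Lib.MP_ae0f86_nt.F.StmJ

/-!
# MP_ae0f86_nt, project FS, piece [FS coord]: the complement of the propagators in coordinates
-/

set_option autoImplicit false

open CategoryTheory CategoryTheory.Limits MvPolynomial Opposite MonoidalCategory

universe v u

namespace Pool.Agent.Lib.MP_ae0f86_nt.F

noncomputable section

attribute [local instance] CategoryTheory.Abelian.hasFiniteBiproducts

/-- inverse polynomial maps give an isomorphism -/
private theorem coord_iso {k : Type} [Field k] {ι κ : Type} [Finite ι] [Finite κ]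
    {X : Set (ι → k)} {Y : Set (κ → k)} (hX : IsAlg X) (hY : IsAlg Y)
    (F : κ → MvPolynomial ι k) (G : ι → MvPolynomial κ k)
    (hF : ∀ x ∈ X, (fun j => eval x (F j)) ∈ Y) (hG : ∀ y ∈ Y, (fun i => eval y (G i)) ∈ X)
    (hGF : ∀ x ∈ X, (fun i => eval (fun j => eval x (F j)) (G i)) = x)
    (hFG : ∀ y ∈ Y, (fun j => eval (fun i => eval y (G i)) (F j)) = y) : Iso hX hY :=
  ⟨{ hom := AffPair.mk' (AffPair.abs hX) (AffPair.abs hY) F hF (fun _ hx => hx.elim)
     inv := AffPair.mk' (AffPair.abs hY) (AffPair.abs hX) G hG (fun _ hx => hx.elim)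
     hom_inv_id := AffPair.hom_ext _ _ fun x => hGF x.1 x.2
     inv_hom_id := AffPair.hom_ext _ _ fun y => hFG y.1 y.2 }⟩

private theorem coord_bind {k : Type} [Field k] {σ τ : Type} (f : σ → MvPolynomial τ k)
    (x : τ → k) (p : MvPolynomial σ k) :
    eval x (bind₁ f p) = eval (fun i => eval x (f i)) p := by
  rw [← MvPolynomial.coe_aeval_eq_eval, RingHom.coe_coe, MvPolynomial.aeval_bind₁,
    ← MvPolynomial.coe_aeval_eq_eval, RingHom.coe_coe]

section Abs

variable {k : Type} [Field k] {E W : Type} [Fintype E] [Finite W] (mom : Set (E × Fin 4 → k))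
  (den : E → MvPolynomial (E × Fin 4) k) (fp : E × Fin 4 → MvPolynomial (W × Fin 4) k)
  (rp : W × Fin 4 → MvPolynomial (E × Fin 4) k)
  (h1 : ∀ z ∈ mom, ∀ p, eval (fun q : W × Fin 4 => eval z (rp q)) (fp p) = z p)
  (h2 : ∀ x : W × Fin 4 → k, (fun p => eval x (fp p)) ∈ mom)
  (h3 : ∀ (x : W × Fin 4 → k) (q : W × Fin 4), eval (fun p => eval x (fp p)) (rp q) = x q)

include h1 h2 h3

private theorem coord_abs
    (hX : IsAlg {z : E × Fin 4 ⊕ Unit → k | z ∘ Sum.inl ∈ mom ∧
      z (Sum.inr ()) * ∏ e, eval (z ∘ Sum.inl) (den e) = 1})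
    (hY : IsAlg (us ([] : List (MvPolynomial (W × Fin 4) k)) (∏ e, bind₁ fp (den e)))) :
    Iso hX hY := by
  refine coord_iso _ _
    (Sum.elim (fun q : W × Fin 4 => rename Sum.inl (rp q))
      (fun _ : Unit => MvPolynomial.X (Sum.inr ())))
    (Sum.elim (fun p : E × Fin 4 => rename Sum.inl (fp p))
      (fun _ : Unit => MvPolynomial.X (Sum.inr ()))) ?_ ?_ ?_ ?_
  · rintro z ⟨hz1, hz2⟩
    refine ⟨fun f hf => absurd hf List.not_mem_nil, ?_⟩
    simp only [Sum.elim_inr, eval_X]
    rw [← hz2, map_prod]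
    congr 1
    refine Finset.prod_congr rfl fun e _ => ?_
    rw [coord_bind]
    congr 2
    funext p
    rw [← h1 _ hz1 p]
    congr 2
    funext q
    show eval z (rename Sum.inl (rp q)) = _
    rw [eval_rename]
  · rintro x ⟨-, hx2⟩
    have h4 : (fun i => eval x ((Sum.elim (fun p : E × Fin 4 => rename Sum.inl (fp p))
        (fun _ : Unit => MvPolynomial.X (Sum.inr ())) :
        E × Fin 4 ⊕ Unit → MvPolynomial (W × Fin 4 ⊕ Unit) k) i)) ∘ Sum.inl =
        fun p => eval (x ∘ Sum.inl) (fp p) := by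
      funext p
      show eval x (rename Sum.inl (fp p)) = _
      rw [eval_rename]
    refine ⟨?_, ?_⟩
    · rw [h4]
      exact h2 _
    · rw [h4]
      simp only [Sum.elim_inr, eval_X]
      rw [← hx2, map_prod]
      congr 1
      refine Finset.prod_congr rfl fun e _ => ?_
      rw [coord_bind]
  · rintro z ⟨hz1, -⟩
    funext i
    rcases i with p | u
    · simp only [Sum.elim_inl]
      rw [eval_rename]
      refine Eq.trans ?_ (h1 _ hz1 p)
      congr 2
      funext q
      show eval z (rename Sum.inl (rp q)) = _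
      rw [eval_rename]
    · simp
  · rintro x -
    funext i
    rcases i with q | u
    · simp only [Sum.elim_inl]
      rw [eval_rename]
      refine Eq.trans ?_ (h3 (x ∘ Sum.inl) q)
      congr 2
      funext p
      show eval x (rename Sum.inl (fp p)) = _
      rw [eval_rename]
    · simp

end Abs

section Lin

variable {k : Type} [Field k] [CharZero k] (G : Feynman) {b : ℕ}
  (L : (Fin b → ℚ) →ₗ[ℚ] (G.E → ℚ)) (ρ : (G.E → ℚ) →ₗ[ℚ] (Fin b → ℚ))

/-- The map `L` over `k`. -/
private def coord_L (x : Fin b → k) (e : G.E) : k :=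
  ∑ j, ((L (Pi.single j 1) e : ℚ) : k) * x j

/-- The map `ρ` over `k`. -/
private def coord_R [DecidableEq G.E] (c : G.E → k) (j : Fin b) : k :=
  ∑ e, ((ρ (Pi.single e 1) j : ℚ) : k) * c e

private theorem coord_expL (y : Fin b → ℚ) (e : G.E) :
    L y e = ∑ j, L (Pi.single j 1) e * y j := by
  conv_lhs => rw [pi_eq_sum_univ' y]
  rw [map_sum, Finset.sum_apply]
  refine Finset.sum_congr rfl fun j _ => ?_
  rw [map_smul, Pi.smul_apply, smul_eq_mul, mul_comm]

private theorem coord_expR [DecidableEq G.E] (c : G.E → ℚ) (j : Fin b) :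
    ρ c j = ∑ e, ρ (Pi.single e 1) j * c e := by
  conv_lhs => rw [pi_eq_sum_univ' c]
  rw [map_sum, Finset.sum_apply]
  refine Finset.sum_congr rfl fun e _ => ?_
  rw [map_smul, Pi.smul_apply, smul_eq_mul, mul_comm]

private theorem coord_cons (hL : ∀ y, G.Conserved (L y)) (x : Fin b → k) :
    G.Conserved (coord_L G L x) := by
  intro v
  have key : ∀ f : G.E → G.V, (∑ e, if f e = v then coord_L G L x e else 0) =
      ∑ j, ((∑ e, if f e = v then L (Pi.single j 1) e else 0 : ℚ) : k) * x j := by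
    intro f
    unfold coord_L
    have h : ∀ e, (if f e = v then ∑ j, ((L (Pi.single j 1) e : ℚ) : k) * x j else 0) =
        ∑ j, (((if f e = v then L (Pi.single j 1) e else 0 : ℚ)) : k) * x j := by
      intro e
      split_ifs
      · rfl
      · simp
    simp only [h]
    rw [Finset.sum_comm]
    refine Finset.sum_congr rfl fun j _ => ?_
    rw [← Finset.sum_mul]
    push_cast
    rfl
  rw [key, key]
  refine Finset.sum_congr rfl fun j _ => ?_
  rw [hL (Pi.single j 1) v]

private theorem coord_RL [DecidableEq G.E] (h : ∀ y, ρ (L y) = y) (x : Fin b → k) (j : Fin b) :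
    coord_R G ρ (coord_L G L x) j = x j := by
  unfold coord_R coord_L
  have h1 : ∀ i, ∑ e, ρ (Pi.single e 1) j * L (Pi.single i 1) e = if i = j then 1 else 0 := by
    intro i
    rw [← coord_expR, h, Pi.single_apply]
    simp only [eq_comm]
  have h2 : ∑ e, ((ρ (Pi.single e 1) j : ℚ) : k) * ∑ i, ((L (Pi.single i 1) e : ℚ) : k) * x i =
      ∑ i, ((∑ e, ρ (Pi.single e 1) j * L (Pi.single i 1) e : ℚ) : k) * x i := by
    simp only [Finset.mul_sum]
    rw [Finset.sum_comm]
    refine Finset.sum_congr rfl fun i _ => ?_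
    push_cast
    rw [Finset.sum_mul]
    refine Finset.sum_congr rfl fun e _ => ?_
    ring
  rw [h2]
  simp only [h1]
  rw [Finset.sum_eq_single j]
  · simp
  · intro i _ hi
    simp [hi]
  · intro hj
    exact absurd (Finset.mem_univ j) hj

private theorem coord_LR [DecidableEq G.E] (hL : ∀ c, G.Conserved c → L (ρ c) = c)
    (c : G.E → k) (hc : G.Conserved c) (e : G.E) :
    coord_L G L (coord_R G ρ c) e = c e := by
  rw [← sub_eq_zero, ← Module.forall_dual_apply_eq_zero_iff ℚ]
  intro φ
  have hm : ∀ (q : ℚ) (x : k), φ ((q : k) * x) = q * φ x := by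
    intro q x
    rw [← Rat.smul_def, map_smul, smul_eq_mul]
  have hcφ : G.Conserved fun e => φ (c e) := by
    intro v
    have key : ∀ f : G.E → G.V, (∑ e, if f e = v then φ (c e) else 0) =
        φ (∑ e, if f e = v then c e else 0) := by
      intro f
      rw [map_sum]
      refine Finset.sum_congr rfl fun e _ => ?_
      split_ifs
      · rfl
      · rw [map_zero]
    rw [key, key, hc v]
  rw [map_sub, sub_eq_zero]
  have h1 := congrFun (hL _ hcφ) e
  rw [← h1, coord_expL G L]
  unfold coord_L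
  rw [map_sum]
  refine Finset.sum_congr rfl fun j _ => ?_
  rw [hm, coord_expR G ρ]
  unfold coord_R
  rw [map_sum]
  congr 1
  exact Finset.sum_congr rfl fun e' _ => hm _ _

end Lin

theorem j_coord : S_jcoord := by
  classical
  intro k _ _ G
  let B := Module.finBasisOfFinrankEq ℚ (cycles G) (loops_eq G).symm
  let L : (Fin G.loops → ℚ) →ₗ[ℚ] (G.E → ℚ) := (cycles G).subtype ∘ₗ B.equivFun.symm.toLinearMap
  have hLinj : LinearMap.ker L = ⊥ := by
    rw [LinearMap.ker_eq_bot]
    exact (cycles G).subtype_injective.comp B.equivFun.symm.injective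
  obtain ⟨ρ, hρ⟩ := L.exists_leftInverse_of_injective hLinj
  have hρL : ∀ y, ρ (L y) = y := fun y => congrArg (fun f => f y) hρ
  have hLc : ∀ y, G.Conserved (L y) := fun y => (B.equivFun.symm y).2
  have hLR : ∀ c, G.Conserved c → L (ρ c) = c := by
    intro c hc
    have h1 : L (B.equivFun ⟨c, hc⟩) = c := by
      show ((B.equivFun.symm (B.equivFun ⟨c, hc⟩) : cycles G) : G.E → ℚ) = c
      rw [LinearEquiv.symm_apply_apply]
    rw [← h1, hρL]
  let fp : G.E × Fin 4 → MvPolynomial (Fin G.loops × Fin 4) k := fun p =>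
    ∑ j, MvPolynomial.C ((L (Pi.single j 1) p.1 : ℚ) : k) * MvPolynomial.X (j, p.2)
  let rp : Fin G.loops × Fin 4 → MvPolynomial (G.E × Fin 4) k := fun q =>
    ∑ e, MvPolynomial.C ((ρ (Pi.single e 1) q.1 : ℚ) : k) * MvPolynomial.X (e, q.2)
  have hfp : ∀ (x : Fin G.loops × Fin 4 → k) (p : G.E × Fin 4), eval x (fp p) =
      coord_L G L (fun j => x (j, p.2)) p.1 := by
    intro x p
    simp only [fp, map_sum, map_mul, eval_C, eval_X, coord_L]
  have hrp : ∀ (z : G.E × Fin 4 → k) (q : Fin G.loops × Fin 4), eval z (rp q) =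
      coord_R G ρ (fun e => z (e, q.2)) q.1 := by
    intro z q
    simp only [rp, map_sum, map_mul, eval_C, eval_X, coord_R]
  refine ⟨∏ e, bind₁ fp (G.den k e), coord_abs (G.momenta k) (G.den k) fp rp ?_ ?_ ?_ _ _⟩
  · intro z hz p
    rw [hfp]
    simp only [hrp]
    exact coord_LR G L ρ hLR _ (hz p.2) p.1
  · intro x j
    have := coord_cons (k := k) G L hLc (fun i => x (i, j))
    simp only [hfp]
    exact this
  · intro x q
    rw [hrp]
    simp only [hfp]
    exact coord_RL G L ρ hρL _ q.1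

end

end Pool.Agent.Lib.MP_ae0f86_nt.F
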