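import Pool.Agent.Lib.MP_ae0f86_nt.F.StmJ

/-!
# MP_ae0f86_nt, project FS: isomorphic graphs [FS equiv]
-/

open CategoryTheory CategoryTheory.Limits MvPolynomial Opposite MonoidalCategory

universe v u

namespace Pool.Agent.Lib.MP_ae0f86_nt.F

noncomputable section

attribute [local instance] CategoryTheory.Abelian.hasFiniteBiproducts

private theorem equiv_ren {k : Type} [Field k] {ι ι' : Type} [Finite ι] [Finite ι'] (ε : ι ≃ ι')
    {X : Set (ι → k)} {X' : Set (ι' → k)} (hX : IsAlg X) (hX' : IsAlg X')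
    (h : X' = {z | z ∘ ε ∈ X}) : Nonempty (AffPair.abs hX' ≅ AffPair.abs hX) := by
  subst h
  let f : AffPair.abs hX' ⟶ AffPair.abs hX :=
    ⟨fun z => ⟨z.1 ∘ ε, z.2⟩, ⟨fun j => MvPolynomial.X (ε j), by intro x j; simp⟩,
      fun x hx => hx.elim⟩
  let g : AffPair.abs hX ⟶ AffPair.abs hX' :=
    ⟨fun z => ⟨z.1 ∘ ε.symm, by
        show (z.1 ∘ ε.symm) ∘ ε ∈ X
        have : (z.1 ∘ ε.symm) ∘ ε = z.1 := by
          funext i
          simp
        rw [this]
        exact z.2⟩, ⟨fun j => MvPolynomial.X (ε.symm j), by intro x j; simp⟩,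
      fun x hx => hx.elim⟩
  have : IsIso f := by
    refine isIso_of_inv f g (fun x => ?_) (fun y => ?_)
    · funext i
      show (x.1 : ι' → k) (ε (ε.symm i)) = x.1 i
      rw [Equiv.apply_symm_apply]
    · funext i
      show (y.1 : ι → k) (ε.symm (ε i)) = y.1 i
      rw [Equiv.symm_apply_apply]
  exact ⟨asIso f⟩

private theorem equiv_sum {R : Type} [AddCommMonoid R] {V V' E E' : Type} [Fintype E] [Fintype E']
    [DecidableEq V] [DecidableEq V'] (f : V ≃ V') (g : E ≃ E') (t : E → V) (t' : E' → V')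
    (h : ∀ e, t' (g e) = f (t e)) (c : E' → R) (v : V) :
    (∑ e', if t' e' = f v then c e' else 0) = ∑ e, if t e = v then (c ∘ g) e else 0 := by
  rw [← Equiv.sum_comp g]
  refine Finset.sum_congr rfl fun e _ => ?_
  refine if_congr ?_ rfl rfl
  rw [h e]
  exact f.injective.eq_iff

private theorem equiv_cons {R : Type} [AddCommMonoid R] {G G' : Feynman} (f : G.V ≃ G'.V)
    (g : G.E ≃ G'.E) (hs : ∀ e, G'.src (g e) = f (G.src e))
    (ht : ∀ e, G'.tgt (g e) = f (G.tgt e)) (c : G'.E → R) :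
    G'.Conserved c ↔ G.Conserved (c ∘ g) := by
  constructor
  · intro h v
    have h1 := h (f v)
    rw [equiv_sum f g G.tgt G'.tgt ht c v, equiv_sum f g G.src G'.src hs c v] at h1
    exact h1
  · intro h v'
    obtain ⟨v, rfl⟩ := f.surjective v'
    rw [equiv_sum f g G.tgt G'.tgt ht c v, equiv_sum f g G.src G'.src hs c v]
    exact h v

private theorem equiv_loops {G G' : Feynman} (f : G.V ≃ G'.V)
    (g : G.E ≃ G'.E) (hs : ∀ e, G'.src (g e) = f (G.src e))
    (ht : ∀ e, G'.tgt (g e) = f (G.tgt e)) : G.loops = G'.loops := by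
  have h : cycles G' = (cycles G).map
      (LinearEquiv.funCongrLeft ℚ ℚ g.symm : (G.E → ℚ) ≃ₗ[ℚ] (G'.E → ℚ)).toLinearMap := by
    ext c
    rw [Submodule.mem_map]
    constructor
    · intro hc
      refine ⟨c ∘ g, (equiv_cons f g hs ht c).1 hc, ?_⟩
      funext e
      show c (g (g.symm e)) = c e
      rw [Equiv.apply_symm_apply]
    · rintro ⟨d, hd, rfl⟩
      refine (equiv_cons f g hs ht _).2 ?_
      have : (LinearEquiv.funCongrLeft ℚ ℚ g.symm : (G.E → ℚ) ≃ₗ[ℚ] (G'.E → ℚ)).toLinearMap d ∘ g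
          = d := by
        funext e
        show d (g.symm (g e)) = d e
        rw [Equiv.symm_apply_apply]
      rw [this]
      exact hd
  rw [loops_eq, loops_eq, h]
  exact (LinearEquiv.finrank_map_eq _ _).symm

/-- Isomorphic graphs. -/
theorem j_equiv : S_jequiv := by
  intro k _ G G' hG
  obtain ⟨f, g, hs, ht, ha⟩ := hG
  refine ⟨equiv_loops f g hs ht, ?_⟩
  let ε : (G'.E × Fin 4) ⊕ Unit ≃ (G.E × Fin 4) ⊕ Unit :=
    Equiv.sumCongr (Equiv.prodCongr g.symm (Equiv.refl _)) (Equiv.refl Unit)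
  refine equiv_ren ε (G'.complSet_alg k) (G.complSet_alg k) ?_
  ext z
  have h1 : ((z ∘ ε) ∘ Sum.inl ∈ G'.momenta k) ↔ z ∘ Sum.inl ∈ G.momenta k := by
    refine forall_congr' fun j => ?_
    rw [equiv_cons f g hs ht]
    have : ((fun e => ((z ∘ ε) ∘ Sum.inl) (e, j)) ∘ g) = fun e => (z ∘ Sum.inl) (e, j) := by
      funext e
      show z (Sum.inl (g.symm (g e), j)) = z (Sum.inl (e, j))
      rw [Equiv.symm_apply_apply]
    rw [this]
  have h2 : (∏ e, eval ((z ∘ ε) ∘ Sum.inl) (G'.den k e)) =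
      ∏ e, eval (z ∘ Sum.inl) (G.den k e) := by
    rw [← Equiv.prod_comp g]
    refine Finset.prod_congr rfl fun e _ => ?_
    have h3 : ∀ j, ((z ∘ ε) ∘ Sum.inl) (g e, j) = (z ∘ Sum.inl) (e, j) := fun j => by
      show z (Sum.inl (g.symm (g e), j)) = z (Sum.inl (e, j))
      rw [Equiv.symm_apply_apply]
    simp only [Feynman.den, sq, map_add, map_mul, eval_X, eval_C, h3, ha e]
  have h3 : (z ∘ ε) (Sum.inr ()) = z (Sum.inr ()) := rfl
  show (z ∘ Sum.inl ∈ G.momenta k ∧ z (Sum.inr ()) * ∏ e, eval (z ∘ Sum.inl) (G.den k e) = 1) ↔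
    ((z ∘ ε) ∘ Sum.inl ∈ G'.momenta k ∧
      (z ∘ ε) (Sum.inr ()) * ∏ e, eval ((z ∘ ε) ∘ Sum.inl) (G'.den k e) = 1)
  rw [h1, h2, h3]

end

end Pool.Agent.Lib.MP_ae0f86_nt.F
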