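import Pool.Agent.Lib.MP_ae0f86_nt.F.StmJ

/-!
# MP_ae0f86_nt, project FS: `[FS ften]`, consequences of the existence of a fibre functor
-/

open CategoryTheory CategoryTheory.Limits Opposite MonoidalCategory

universe v u

namespace Pool.Agent.Lib.MP_ae0f86_nt.F

noncomputable section

attribute [local instance] CategoryTheory.Abelian.hasFiniteBiproducts

variable {A : Type u} [Category.{v} A] [Abelian A] [MonoidalCategory A] [SymmetricCategory A]

private theorem ften_isZero (HB : A ⥤ ModuleCat.{0} ℚ) [FibreFunctor HB] (X : A) :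
    IsZero X ↔ ∀ x : HB.obj X, x = 0 := by
  have hadd : HB.Additive := FibreFunctor.additive
  have hfa : HB.Faithful := FibreFunctor.faithful
  constructor
  · intro hX x
    have h1 : (𝟙 X : X ⟶ X) = 0 := (IsZero.iff_id_eq_zero X).1 hX
    have h2 : HB.map (𝟙 X) = 0 := by rw [h1, Functor.map_zero]
    rw [HB.map_id] at h2
    have h3 := congrArg (fun g => g.hom x) h2
    exact h3
  · intro h
    rw [IsZero.iff_id_eq_zero]
    apply HB.map_injective
    apply ModuleCat.hom_ext
    apply LinearMap.ext
    intro x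
    rw [h ((HB.map (𝟙 X)).hom x), h ((HB.map (0 : X ⟶ X)).hom x)]

private theorem ften_key (HB : A ⥤ ModuleCat.{0} ℚ) [FibreFunctor HB] (X X' Y : A) (f : X ⟶ X')
    (t : TensorProduct ℚ (HB.obj X) (HB.obj Y)) :
    (HB.map (f ▷ Y)).hom (TensorProduct.lift (FibreFunctor.mul X Y) t) =
      TensorProduct.lift (FibreFunctor.mul X' Y)
        (LinearMap.rTensor (HB.obj Y) (HB.map f).hom t) := by
  induction t using TensorProduct.induction_on with
  | zero => simp only [map_zero]
  | add a b ha hb => simp only [map_add, ha, hb]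
  | tmul x y =>
    rw [LinearMap.rTensor_tmul, TensorProduct.lift.tmul, TensorProduct.lift.tmul,
      ← MonoidalCategory.tensorHom_id, FibreFunctor.mul_nat, HB.map_id]
    rfl

theorem j_ften (HB : A ⥤ ModuleCat.{0} ℚ) [FibreFunctor HB] : S_jften HB := by
  have hadd : HB.Additive := FibreFunctor.additive
  have hfa : HB.Faithful := FibreFunctor.faithful
  have hlim : PreservesFiniteLimits HB := FibreFunctor.lim
  have hcol : PreservesFiniteColimits HB := FibreFunctor.colim
  refine ⟨ften_isZero HB, ?_, ?_⟩
  · intro X Y hX hY hXY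
    rw [ften_isZero HB] at hX hY hXY
    push Not at hX hY
    obtain ⟨x, hx⟩ := hX
    obtain ⟨y, hy⟩ := hY
    have h1 : TensorProduct.lift (FibreFunctor.mul (H := HB) X Y) (TensorProduct.tmul ℚ x y) =
        TensorProduct.lift (FibreFunctor.mul (H := HB) X Y) 0 := by
      rw [hXY (TensorProduct.lift (FibreFunctor.mul (H := HB) X Y) (TensorProduct.tmul ℚ x y)),
        map_zero]
    have h2 := (FibreFunctor.bij (H := HB) X Y).1 h1
    have hx' : ∃ φ : Module.Dual ℚ (HB.obj X), φ x ≠ 0 := by
      by_contra hcon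
      push Not at hcon
      exact hx ((Module.forall_dual_apply_eq_zero_iff ℚ x).1 hcon)
    have hy' : ∃ φ : Module.Dual ℚ (HB.obj Y), φ y ≠ 0 := by
      by_contra hcon
      push Not at hcon
      exact hy ((Module.forall_dual_apply_eq_zero_iff ℚ y).1 hcon)
    obtain ⟨φ, hφ⟩ := hx'
    obtain ⟨ψ, hψ⟩ := hy'
    have h3 := congrArg (fun t => TensorProduct.lid ℚ ℚ (TensorProduct.map φ ψ t)) h2
    simp only [TensorProduct.map_tmul, TensorProduct.lid_tmul, map_zero, smul_eq_mul] at h3
    exact (mul_ne_zero hφ hψ) h3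
  · intro X X' Y f
    constructor
    · intro hf
      have h1 : Mono (HB.map f) := inferInstance
      rw [ModuleCat.mono_iff_injective] at h1
      apply HB.mono_of_mono_map
      rw [ModuleCat.mono_iff_injective]
      have h2 : Function.Injective (LinearMap.rTensor (HB.obj Y) (HB.map f).hom) :=
        Module.Flat.rTensor_preserves_injective_linearMap (M := HB.obj Y) (HB.map f).hom h1
      intro a b hab
      obtain ⟨s, rfl⟩ := (FibreFunctor.bij (H := HB) X Y).2 a
      obtain ⟨t, rfl⟩ := (FibreFunctor.bij (H := HB) X Y).2 b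
      have h3 : (HB.map (f ▷ Y)).hom (TensorProduct.lift (FibreFunctor.mul X Y) s) =
          (HB.map (f ▷ Y)).hom (TensorProduct.lift (FibreFunctor.mul X Y) t) := hab
      rw [ften_key, ften_key] at h3
      rw [h2 ((FibreFunctor.bij (H := HB) X' Y).1 h3)]
    · intro hf
      have h1 : Epi (HB.map f) := inferInstance
      rw [ModuleCat.epi_iff_surjective] at h1
      apply HB.epi_of_epi_map
      rw [ModuleCat.epi_iff_surjective]
      have h2 : Function.Surjective (LinearMap.rTensor (HB.obj Y) (HB.map f).hom) :=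
        LinearMap.rTensor_surjective (HB.obj Y) h1
      intro b
      obtain ⟨t, rfl⟩ := (FibreFunctor.bij (H := HB) X' Y).2 b
      obtain ⟨s, rfl⟩ := h2 t
      exact ⟨TensorProduct.lift (FibreFunctor.mul X Y) s, ften_key HB X X' Y f s⟩

end

end Pool.Agent.Lib.MP_ae0f86_nt.F
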