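import Pool.Agent.Lib.MP_ae0f86_nt.F.StmJ

/-!
# MP_ae0f86_nt, project FS, piece irr: the join of irreducible graphs is irreducible
-/

open CategoryTheory CategoryTheory.Limits MvPolynomial Opposite MonoidalCategory

universe v u

namespace Pool.Agent.Lib.MP_ae0f86_nt.F

noncomputable section

attribute [local instance] CategoryTheory.Abelian.hasFiniteBiproducts

private theorem irr_map {V W : Type} {R : V → V → Prop} {S : W → W → Prop} (f : V → W)
    (h : ∀ a b, R a b → S (f a) (f b)) {a b : V} (hab : Relation.EqvGen R a b) :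
    Relation.EqvGen S (f a) (f b) := by
  induction hab with
  | rel x y hxy => exact Relation.EqvGen.rel _ _ (h x y hxy)
  | refl x => exact Relation.EqvGen.refl _
  | symm x y _ ih => exact Relation.EqvGen.symm _ _ ih
  | trans x y z _ _ ih1 ih2 => exact Relation.EqvGen.trans _ _ _ ih1 ih2

private theorem irr_root (G : Rooted) (h : G.Irreducible) (v : G.V) :
    Relation.EqvGen (fun v w => ∃ e, G.src e = v ∧ G.tgt e = w) G.root v := by
  obtain ⟨r, hr⟩ := h.connected
  exact Relation.EqvGen.trans _ _ _ (Relation.EqvGen.symm _ _ (hr G.root)) (hr v)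

private theorem irr_zero (G : Feynman) : G.Conserved (fun _ => (0 : ℚ)) := by
  intro v
  simp

/-- **FS irr.** -/
theorem j_irr (cons : S_jcons) : S_jirr := by
  intro G G' hG hG'
  refine ⟨⟨⟨(G.root, G'.root), Or.inl rfl⟩, ?_⟩, ?_⟩
  · rintro ⟨⟨v, v'⟩, h⟩
    have h1 : v = G.root ∨ v' = G'.root := h
    rcases h1 with rfl | rfl
    · exact irr_map
        (R := fun v w => ∃ e, G'.src e = v ∧ G'.tgt e = w)
        (S := fun v w => ∃ e, (G.join G').src e = v ∧ (G.join G').tgt e = w)
        (fun w : G'.V => (⟨(G.root, w), Or.inl rfl⟩ : (G.join G').V))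
        (fun a b hab => by
          obtain ⟨e, he1, he2⟩ := hab
          subst he1 he2
          exact ⟨Sum.inr e, rfl, rfl⟩) (irr_root G' hG' v')
    · exact irr_map
        (R := fun v w => ∃ e, G.src e = v ∧ G.tgt e = w)
        (S := fun v w => ∃ e, (G.join G').src e = v ∧ (G.join G').tgt e = w)
        (fun w : G.V => (⟨(w, G'.root), Or.inr rfl⟩ : (G.join G').V))
        (fun a b hab => by
          obtain ⟨e, he1, he2⟩ := hab
          subst he1 he2
          exact ⟨Sum.inl e, rfl, rfl⟩) (irr_root G hG v)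
  · intro e
    rcases e with e | e
    · obtain ⟨c, hc, hce⟩ := hG.bridgeless e
      exact ⟨Sum.elim c (fun _ => 0), (cons G G' _).2 ⟨hc, irr_zero G'.toFeynman⟩, hce⟩
    · obtain ⟨c, hc, hce⟩ := hG'.bridgeless e
      exact ⟨Sum.elim (fun _ => 0) c, (cons G G' _).2 ⟨irr_zero G.toFeynman, hc⟩, hce⟩

end

end Pool.Agent.Lib.MP_ae0f86_nt.F
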