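import Pool.Agent.Lib.MP_ae0f86_nt.F.StmJ

/-!
# MP_ae0f86_nt, project FS: the Künneth formula in the highest degree
-/

open CategoryTheory CategoryTheory.Limits MvPolynomial Opposite MonoidalCategory

universe v u

namespace Pool.Agent.Lib.MP_ae0f86_nt.F

noncomputable section

attribute [local instance] CategoryTheory.Abelian.hasFiniteBiproducts

variable {A : Type u} [Category.{v} A] [Abelian A] [MonoidalCategory A]

private theorem ktop_left [MonoidalPreadditive A] {X : A} (h : IsZero X) (Y : A) :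
    IsZero (X ⊗ Y) := by
  rw [IsZero.iff_id_eq_zero] at h ⊢
  rw [← id_whiskerRight, h, MonoidalPreadditive.zero_whiskerRight]

private theorem ktop_right [MonoidalPreadditive A] (X : A) {Y : A} (h : IsZero Y) :
    IsZero (X ⊗ Y) := by
  rw [IsZero.iff_id_eq_zero] at h ⊢
  rw [← whiskerLeft_id, h, MonoidalPreadditive.whiskerLeft_zero]

omit [MonoidalCategory A] in
private theorem ktop_sum {n : ℕ} (B : Fin n → A) (i : Fin n) (h : ∀ j, j ≠ i → IsZero (B j)) :
    Nonempty ((⨁ B) ≅ B i) := by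
  refine ⟨⟨biproduct.π B i, biproduct.ι B i, ?_, biproduct.ι_π_self B i⟩⟩
  refine biproduct.hom_ext _ _ fun j => ?_
  by_cases hj : j = i
  · subst hj
    rw [Category.assoc, biproduct.ι_π_self, Category.comp_id, Category.id_comp]
  · exact (h j hj).eq_of_tgt _ _

/-- The Künneth formula in the highest degree. -/
theorem j_ktop [MonoidalPreadditive A] (T : CohTheory QBar A) : S_jktop T := by
  intro hK ι ι' _ _ X X' hX hX' Y hY hYeq d d' h1 h2
  obtain ⟨e⟩ := hK hX hX' hY hYeq (d + d')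
  have hd : d < d + d' + 1 := by omega
  obtain ⟨e2⟩ := ktop_sum (fun i : Fin (d + d' + 1) =>
    (T.h ((i : ℕ) : ℤ)).obj (op (AffPair.abs hX)) ⊗
      (T.h (((d + d' : ℕ) : ℤ) - ((i : ℕ) : ℤ))).obj (op (AffPair.abs hX'))) ⟨d, hd⟩ (by
    intro j hj
    have hne : (j : ℕ) ≠ d := fun h => hj (Fin.ext h)
    rcases lt_or_gt_of_ne hne with hlt | hgt
    · refine ktop_right _ (h2 _ ?_)
      push_cast
      omega
    · refine ktop_left (h1 _ ?_) _
      exact_mod_cast hgt)
  have e3 : (T.h ((d : ℤ) + d')).obj (op (AffPair.abs hY)) ≅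
      (T.h ((d + d' : ℕ) : ℤ)).obj (op (AffPair.abs hY)) :=
    eqToIso (congrArg (fun m : ℤ => (T.h m).obj (op (AffPair.abs hY))) (Nat.cast_add d d').symm)
  have h4 : ((d + d' : ℕ) : ℤ) - (d : ℤ) = (d' : ℤ) := by
    push_cast
    ring
  have e4 : (T.h (d : ℤ)).obj (op (AffPair.abs hX)) ⊗
      (T.h (((d + d' : ℕ) : ℤ) - (d : ℤ))).obj (op (AffPair.abs hX')) ≅
      (T.h (d : ℤ)).obj (op (AffPair.abs hX)) ⊗ (T.h (d' : ℤ)).obj (op (AffPair.abs hX')) :=
    eqToIso (congrArg (fun m : ℤ => (T.h (d : ℤ)).obj (op (AffPair.abs hX)) ⊗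
      (T.h m).obj (op (AffPair.abs hX'))) h4)
  exact ⟨e3 ≪≫ e ≪≫ e2 ≪≫ e4⟩

end

end Pool.Agent.Lib.MP_ae0f86_nt.F
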