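import Pool.Agent.Lib.MP_ae0f86_nt.F.StmJ

/-!
# MP_ae0f86_nt, project FS: there are lists of all graphs
-/

open CategoryTheory CategoryTheory.Limits MvPolynomial Opposite MonoidalCategory

universe v u

namespace Pool.Agent.Lib.MP_ae0f86_nt.F

noncomputable section

attribute [local instance] CategoryTheory.Abelian.hasFiniteBiproducts

/-- The graphs with vertices `0, ..., v` and edges `0, ..., e - 1`. -/
private abbrev Code : Type :=
  Σ v : ℕ, Σ e : ℕ, (Fin e → Fin (v + 1)) × (Fin e → Fin (v + 1)) × (Fin e → Fin 4 → ℤ)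

private instance : Countable Code := inferInstance

private def Code.graph (x : Code) : Rooted where
  V := Fin (x.1 + 1)
  E := Fin x.2.1
  finV := inferInstance
  finE := inferInstance
  decV := inferInstance
  src := x.2.2.1
  tgt := x.2.2.2.1
  a := x.2.2.2.2
  root := 0

private theorem code_ex (G : Feynman) (r : G.V) : ∃ x : Code, G.Isomorphic x.graph.toFeynman := by
  have hV : 0 < Fintype.card G.V := Fintype.card_pos_iff.2 ⟨r⟩
  obtain ⟨v, hv⟩ : ∃ v, Fintype.card G.V = v + 1 := ⟨Fintype.card G.V - 1, by omega⟩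
  let f : G.V ≃ Fin (v + 1) := Fintype.equivFinOfCardEq hv
  let g : G.E ≃ Fin (Fintype.card G.E) := Fintype.equivFin G.E
  refine ⟨⟨v, Fintype.card G.E, fun e => f (G.src (g.symm e)), fun e => f (G.tgt (g.symm e)),
    fun e => G.a (g.symm e)⟩, f, g, fun e => ?_, fun e => ?_, fun e => ?_⟩
  · show f (G.src (g.symm (g e))) = f (G.src e)
    rw [Equiv.symm_apply_apply]
  · show f (G.tgt (g.symm (g e))) = f (G.tgt e)
    rw [Equiv.symm_apply_apply]
  · show G.a (g.symm (g e)) = G.a e
    rw [Equiv.symm_apply_apply]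

private theorem list_sum {R : Type} [AddCommMonoid R] {V V' E E' : Type} [Fintype E] [Fintype E']
    [DecidableEq V] [DecidableEq V'] (f : V ≃ V') (g : E ≃ E') (t : E → V) (t' : E' → V')
    (h : ∀ e, t' (g e) = f (t e)) (c : E' → R) (v : V) :
    (∑ e', if t' e' = f v then c e' else 0) = ∑ e, if t e = v then (c ∘ g) e else 0 := by
  rw [← Equiv.sum_comp g]
  refine Finset.sum_congr rfl fun e _ => ?_
  refine if_congr ?_ rfl rfl
  rw [h e]
  exact f.injective.eq_iff

/-- Irreducibility is invariant under isomorphisms. -/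
theorem irr_equiv {G G' : Feynman} (h : G.Isomorphic G') (hG : G.Irreducible) :
    G'.Irreducible := by
  obtain ⟨f, g, hs, ht, -⟩ := h
  obtain ⟨⟨r, hr⟩, hb⟩ := hG
  refine ⟨⟨f r, fun w => ?_⟩, fun e' => ?_⟩
  · obtain ⟨v, rfl⟩ := f.surjective w
    have h1 : ∀ v w, Relation.EqvGen (fun v w => ∃ e, G.src e = v ∧ G.tgt e = w) v w →
        Relation.EqvGen (fun v w => ∃ e, G'.src e = v ∧ G'.tgt e = w) (f v) (f w) := by
      intro v w h
      induction h with
      | rel x y h =>
        obtain ⟨e, he1, he2⟩ := h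
        exact Relation.EqvGen.rel _ _ ⟨g e, by rw [hs, he1], by rw [ht, he2]⟩
      | refl x => exact Relation.EqvGen.refl _
      | symm x y _ ih => exact Relation.EqvGen.symm _ _ ih
      | trans x y z _ _ ih1 ih2 => exact Relation.EqvGen.trans _ _ _ ih1 ih2
    exact h1 _ _ (hr v)
  · obtain ⟨e, rfl⟩ := g.surjective e'
    obtain ⟨c, hc, hce⟩ := hb e
    refine ⟨c ∘ g.symm, fun v' => ?_, ?_⟩
    · obtain ⟨v, rfl⟩ := f.surjective v'
      have h2 : (c ∘ g.symm) ∘ g = c := by
        funext e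
        show c (g.symm (g e)) = c e
        rw [Equiv.symm_apply_apply]
      rw [list_sum f g G.tgt G'.tgt ht (c ∘ g.symm) v,
        list_sum f g G.src G'.src hs (c ∘ g.symm) v, h2]
      exact hc v
    · show c (g.symm (g e)) ≠ 0
      rw [Equiv.symm_apply_apply]
      exact hce

variable {A : Type u} [Category.{v} A] [Abelian A] [MonoidalCategory A]

theorem top_equiv (equiv : S_jequiv) (T : CohTheory QBar A) {G G' : Feynman}
    (h : G.Isomorphic G') : Nonempty (G.top T ≅ G'.top T) := by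
  obtain ⟨hloops, ⟨hiso⟩⟩ := equiv (k := QBar) G G' h
  unfold Feynman.top
  rw [hloops]
  exact ⟨(T.h (4 * G'.loops)).mapIso hiso.symm.op⟩

/-- There are lists of all irreducible graphs with `h^(4b)(U) ≠ 0`, up to isomorphism. -/
theorem j_list [MonoidalPreadditive A] [SymmetricCategory A] (T : CohTheoryL QBar A)
    (geo : S_geo T) (equiv : S_jequiv) (hone : ¬ IsZero (𝟙_ A))
    (hten : ∀ X Y : A, ¬ IsZero X → ¬ IsZero Y → ¬ IsZero (X ⊗ Y)) :
    ∃ H : ℕ → Rooted, (∀ k, (H k).Irreducible ∧ ¬ IsZero ((H k).top T.toCohTheory)) ∧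
      ∀ G : Feynman, G.Irreducible → ¬ IsZero (G.top T.toCohTheory) →
        ∃ k, G.Isomorphic (H k).toFeynman := by
  let Ok : Type := {x : Code // x.graph.Irreducible ∧ ¬ IsZero (x.graph.top T.toCohTheory)}
  have hcode : ∀ G : Feynman, G.Irreducible → ¬ IsZero (G.top T.toCohTheory) →
      ∃ x : Ok, G.Isomorphic x.1.graph.toFeynman := by
    intro G hG hG0
    obtain ⟨r, -⟩ := hG.connected
    obtain ⟨x, hx⟩ := code_ex G r
    refine ⟨⟨x, irr_equiv hx hG, fun h => hG0 ?_⟩, hx⟩
    obtain ⟨i⟩ := top_equiv equiv T.toCohTheory hx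
    exact IsZero.of_iso h i
  have hne : Nonempty Ok := by
    obtain ⟨⟨e, G, hirr, hsq⟩, -⟩ := geo (𝟙_ A)
    have hL : ¬ IsZero T.L := fun h => by
      refine hone (IsZero.of_iso ?_ T.tateIso.symm)
      rw [IsZero.iff_id_eq_zero] at h ⊢
      rw [← MonoidalCategory.id_whiskerRight, h, MonoidalPreadditive.zero_whiskerRight]
    have hpow : ∀ e : ℕ, ¬ IsZero (tpow T.L e) := by
      intro e
      induction e with
      | zero => exact hone
      | succ e ih => exact hten _ _ ih hL
    have hNe : ¬ IsZero (𝟙_ A ⊗ tpow T.L e) := hten _ _ hone (hpow e)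
    have hG : ¬ IsZero (G.top T.toCohTheory) := fun h => by
      refine hNe ?_
      obtain ⟨N, i, p, hi, hp⟩ := hsq
      have h1 : IsZero N := by
        rw [IsZero.iff_id_eq_zero]
        rw [← cancel_mono i]
        exact h.eq_of_tgt _ _
      rw [IsZero.iff_id_eq_zero, ← cancel_epi p]
      exact h1.eq_of_src _ _
    obtain ⟨x, -⟩ := hcode G hirr hG
    exact ⟨x⟩
  have : Countable Ok := inferInstance
  obtain ⟨F, hF⟩ := exists_surjective_nat Ok
  refine ⟨fun k => (F k).1.graph, fun k => (F k).2, fun G hG hG0 => ?_⟩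
  obtain ⟨x, hx⟩ := hcode G hG hG0
  obtain ⟨k, rfl⟩ := hF x
  exact ⟨k, hx⟩

end

end Pool.Agent.Lib.MP_ae0f86_nt.F
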