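import Pool.Agent.Lib.MP_ae0f86_nt.F.StmJ

/-!
# MP_ae0f86_nt, project FS, piece loops: loops of the join
-/

open CategoryTheory CategoryTheory.Limits MvPolynomial Opposite MonoidalCategory

universe v u

namespace Pool.Agent.Lib.MP_ae0f86_nt.F

noncomputable section

attribute [local instance] CategoryTheory.Abelian.hasFiniteBiproducts

private def loops_equiv (cons : S_jcons) (G G' : Rooted) :
    cycles (G.join G').toFeynman ≃ₗ[ℚ] cycles G.toFeynman × cycles G'.toFeynman where
  toFun c := (⟨fun e => c.1 (Sum.inl e), ((cons G G' c.1).1 c.2).1⟩,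
    ⟨fun e => c.1 (Sum.inr e), ((cons G G' c.1).1 c.2).2⟩)
  invFun p := ⟨Sum.elim p.1.1 p.2.1, (cons G G' _).2 ⟨p.1.2, p.2.2⟩⟩
  map_add' _ _ := rfl
  map_smul' _ _ := rfl
  left_inv c := by
    apply Subtype.ext
    funext e
    rcases e with e | e <;> rfl
  right_inv p := rfl

theorem j_loops (cons : S_jcons) : S_jloops := by
  intro G G'
  rw [loops_eq, loops_eq, loops_eq, (loops_equiv cons G G').finrank_eq]
  have := G.finE
  have := G'.finE
  exact Module.finrank_prod

end

end Pool.Agent.Lib.MP_ae0f86_nt.F
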