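import Pool.Agent.Lib.MP_ae0f86_nt.F.StmJ

/-!
# MP_ae0f86_nt, project FS, piece pow: top cohomology of the powers
-/

open CategoryTheory CategoryTheory.Limits MvPolynomial Opposite MonoidalCategory

universe v u

namespace Pool.Agent.Lib.MP_ae0f86_nt.F

noncomputable section

attribute [local instance] CategoryTheory.Abelian.hasFiniteBiproducts

variable {A : Type u} [Category.{v} A] [Abelian A] [MonoidalCategory A]

theorem j_pow [MonoidalPreadditive A] (T : CohTheoryL QBar A) (top : S_jtop T) : S_jpow T := by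
  intro hK G n
  induction n with
  | zero => exact ⟨(λ_ (G.top T.toCohTheory)).symm⟩
  | succ n ih =>
    obtain ⟨e⟩ := ih
    obtain ⟨f⟩ := top hK (G.power n) G
    exact ⟨f ≪≫ (e ⊗ᵢ Iso.refl _)⟩

end

end Pool.Agent.Lib.MP_ae0f86_nt.F
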