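import Pool.Agent.Lib.MP_ae0f86_nt.F.StmJ

/-!
# MP_ae0f86_nt, project FS, piece top: top cohomology of a join
-/

open CategoryTheory CategoryTheory.Limits MvPolynomial Opposite MonoidalCategory

universe v u

namespace Pool.Agent.Lib.MP_ae0f86_nt.F

noncomputable section

attribute [local instance] CategoryTheory.Abelian.hasFiniteBiproducts

variable {A : Type u} [Category.{v} A] [Abelian A] [MonoidalCategory A]

/-- The product of two algebraic sets. -/
private theorem top_prod {k : Type} [Field k] {ι ι' : Type} {X : Set (ι → k)} {X' : Set (ι' → k)}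
    (hX : IsAlg X) (hX' : IsAlg X') :
    IsAlg {z : ι ⊕ ι' → k | z ∘ Sum.inl ∈ X ∧ z ∘ Sum.inr ∈ X'} := by
  have h1 := hX.preimage (ι := ι ⊕ ι') (fun j => MvPolynomial.X (Sum.inl j))
  have h2 := hX'.preimage (ι := ι ⊕ ι') (fun j => MvPolynomial.X (Sum.inr j))
  have h3 := h1.inter h2
  have h4 : {z : ι ⊕ ι' → k | z ∘ Sum.inl ∈ X ∧ z ∘ Sum.inr ∈ X'} =
      {x : ι ⊕ ι' → k | (fun j => eval x (MvPolynomial.X (Sum.inl j))) ∈ X} ∩
        {x : ι ⊕ ι' → k | (fun j => eval x (MvPolynomial.X (Sum.inr j))) ∈ X'} := by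
    ext z
    simp only [Set.mem_inter_iff, Set.mem_ofPred_eq, eval_X]
    rfl
  rw [h4]
  exact h3

private theorem top_cast (T : CohTheoryL QBar A) (X : AffPair QBar) {m n : ℤ} (h : m = n) :
    Nonempty ((T.h m).obj (op X) ≅ (T.h n).obj (op X)) := by
  subst h
  exact ⟨Iso.refl _⟩

theorem j_top [MonoidalPreadditive A] (T : CohTheoryL QBar A) (loops : S_jloops)
    (compl : S_jcompl) (art : S_jart T) (ktop : S_jktop T.toCohTheory) : S_jtop T := by
  intro hK G G'
  have hY := top_prod (G.complSet_alg QBar) (G'.complSet_alg QBar)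
  obtain ⟨e⟩ := compl G G' hY rfl
  obtain ⟨f⟩ := ktop hK (G.complSet_alg QBar) (G'.complSet_alg QBar) hY rfl (4 * G.loops)
    (4 * G'.loops) (fun i hi => art G.toFeynman i (by push_cast at hi; exact hi))
    (fun i hi => art G'.toFeynman i (by push_cast at hi; exact hi))
  have hl := loops G G'
  obtain ⟨c0⟩ := top_cast T ((G.join G').compl QBar)
    (show (4 * ((G.join G').loops : ℤ)) = ((4 * G.loops : ℕ) : ℤ) + ((4 * G'.loops : ℕ) : ℤ) by
      rw [hl]; push_cast; ring)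
  obtain ⟨c1⟩ := top_cast T (G.compl QBar)
    (show ((4 * G.loops : ℕ) : ℤ) = 4 * (G.loops : ℤ) by push_cast; ring)
  obtain ⟨c2⟩ := top_cast T (G'.compl QBar)
    (show ((4 * G'.loops : ℕ) : ℤ) = 4 * (G'.loops : ℤ) by push_cast; ring)
  exact ⟨c0 ≪≫ ((T.h _).mapIso e.op).symm ≪≫ f ≪≫ (c1 ⊗ᵢ c2)⟩

end

end Pool.Agent.Lib.MP_ae0f86_nt.F
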