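import Pool.Agent.Lib.MP_ae0f86_nt.F.Sum
import Pool.Agent.Lib.MP_ae0f86_nt.F.MainJ
import Pool.Agent.Lib.MP_ae0f86_nt.F.J.list

/-!
# MP_ae0f86_nt, project FS: sums of graphs
-/

open CategoryTheory CategoryTheory.Limits MvPolynomial Opposite MonoidalCategory

universe v u

namespace Pool.Agent.Lib.MP_ae0f86_nt.F

noncomputable section

attribute [local instance] CategoryTheory.Abelian.hasFiniteBiproducts

/-! ### flows with values in a field of characteristic zero -/

theorem cons_dual (G : Feynman) {k : Type} [Field k] [CharZero k] (c : G.E → k) :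
    G.Conserved c ↔ ∀ φ : Module.Dual ℚ k, G.Conserved fun e => φ (c e) := by
  have key : ∀ (φ : Module.Dual ℚ k) (f : G.E → G.V) (v : G.V),
      φ (∑ e, if f e = v then c e else 0) = ∑ e, if f e = v then φ (c e) else 0 := by
    intro φ f v
    rw [map_sum]
    refine Finset.sum_congr rfl fun e _ => ?_
    split_ifs
    · rfl
    · exact map_zero φ
  constructor
  · intro h φ v
    rw [← key, ← key, h v]
  · intro h v
    rw [← sub_eq_zero]
    refine (Module.forall_dual_apply_eq_zero_iff ℚ _).1 fun φ => ?_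
    rw [map_sub, key, key, h φ v, sub_self]

/-- A bijection of the edges which preserves momenta and flows. -/
def FEquiv (J J' : Feynman) : Prop :=
  ∃ ε : J.E ≃ J'.E, (∀ e, J'.a (ε e) = J.a e) ∧
    ∀ c : J'.E → ℚ, J'.Conserved c ↔ J.Conserved fun e => c (ε e)

theorem fequiv_cons {J J' : Feynman} (ε : J.E ≃ J'.E)
    (h : ∀ c : J'.E → ℚ, J'.Conserved c ↔ J.Conserved fun e => c (ε e)) {k : Type} [Field k]
    [CharZero k] (c : J'.E → k) : J'.Conserved c ↔ J.Conserved fun e => c (ε e) := by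
  rw [cons_dual, cons_dual]
  exact forall_congr' fun φ => h _

theorem fequiv_loops {J J' : Feynman} (h : FEquiv J J') : J.loops = J'.loops := by
  obtain ⟨ε, -, hc⟩ := h
  have h1 : cycles J' = (cycles J).map
      (LinearEquiv.funCongrLeft ℚ ℚ ε.symm : (J.E → ℚ) ≃ₗ[ℚ] (J'.E → ℚ)).toLinearMap := by
    ext c
    rw [Submodule.mem_map]
    constructor
    · intro hc'
      refine ⟨fun e => c (ε e), (hc c).1 hc', ?_⟩
      funext e
      show c (ε (ε.symm e)) = c e
      rw [Equiv.apply_symm_apply]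
    · rintro ⟨d, hd, rfl⟩
      refine (hc _).2 ?_
      have : (fun e => (LinearEquiv.funCongrLeft ℚ ℚ ε.symm : (J.E → ℚ) ≃ₗ[ℚ] (J'.E → ℚ)).toLinearMap
          d (ε e)) = d := by
        funext e
        show d (ε.symm (ε e)) = d e
        rw [Equiv.symm_apply_apply]
      rw [this]
      exact hd
  rw [loops_eq, loops_eq, h1]
  exact (LinearEquiv.finrank_map_eq _ _).symm

private theorem sum_ren {k : Type} [Field k] {ι ι' : Type} [Finite ι] [Finite ι'] (ε : ι ≃ ι')
    {X : Set (ι → k)} {X' : Set (ι' → k)} (hX : IsAlg X) (hX' : IsAlg X')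
    (h : X' = {z | z ∘ ε ∈ X}) : Nonempty (AffPair.abs hX' ≅ AffPair.abs hX) := by
  subst h
  let f : AffPair.abs hX' ⟶ AffPair.abs hX :=
    ⟨fun z => ⟨z.1 ∘ ε, z.2⟩, ⟨fun j => MvPolynomial.X (ε j), by intro x j; simp⟩,
      fun x hx => hx.elim⟩
  let g : AffPair.abs hX ⟶ AffPair.abs hX' :=
    ⟨fun z => ⟨z.1 ∘ ε.symm, by
        show (z.1 ∘ ε.symm) ∘ ε ∈ X
        have : (z.1 ∘ ε.symm) ∘ ε = z.1 := by
          funext i
          simp
        rw [this]
        exact z.2⟩, ⟨fun j => MvPolynomial.X (ε.symm j), by intro x j; simp⟩,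
      fun x hx => hx.elim⟩
  have : IsIso f := by
    refine isIso_of_inv f g (fun x => ?_) (fun y => ?_)
    · funext i
      show (x.1 : ι' → k) (ε (ε.symm i)) = x.1 i
      rw [Equiv.apply_symm_apply]
    · funext i
      show (y.1 : ι → k) (ε.symm (ε i)) = y.1 i
      rw [Equiv.symm_apply_apply]
  exact ⟨asIso f⟩

theorem fequiv_iso {k : Type} [Field k] [CharZero k] {J J' : Feynman} (h : FEquiv J J') :
    Iso (J.complSet_alg k) (J'.complSet_alg k) := by
  obtain ⟨g, ha, hc⟩ := h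
  let ε : (J'.E × Fin 4) ⊕ Unit ≃ (J.E × Fin 4) ⊕ Unit :=
    Equiv.sumCongr (Equiv.prodCongr g.symm (Equiv.refl _)) (Equiv.refl Unit)
  refine sum_ren ε (J'.complSet_alg k) (J.complSet_alg k) ?_
  ext z
  have h1 : ((z ∘ ε) ∘ Sum.inl ∈ J'.momenta k) ↔ z ∘ Sum.inl ∈ J.momenta k := by
    refine forall_congr' fun j => ?_
    rw [fequiv_cons g hc]
    have : (fun e => (fun e' => ((z ∘ ε) ∘ Sum.inl) (e', j)) (g e)) =
        fun e => (z ∘ Sum.inl) (e, j) := by
      funext e
      show z (Sum.inl (g.symm (g e), j)) = z (Sum.inl (e, j))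
      rw [Equiv.symm_apply_apply]
    rw [this]
  have h2 : (∏ e, eval ((z ∘ ε) ∘ Sum.inl) (J'.den k e)) =
      ∏ e, eval (z ∘ Sum.inl) (J.den k e) := by
    rw [← Equiv.prod_comp g]
    refine Finset.prod_congr rfl fun e _ => ?_
    have h3 : ∀ j, ((z ∘ ε) ∘ Sum.inl) (g e, j) = (z ∘ Sum.inl) (e, j) := fun j => by
      show z (Sum.inl (g.symm (g e), j)) = z (Sum.inl (e, j))
      rw [Equiv.symm_apply_apply]
    simp only [Feynman.den, sq, map_add, map_mul, eval_X, eval_C, h3, ha e]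
  have h3 : (z ∘ ε) (Sum.inr ()) = z (Sum.inr ()) := rfl
  show (z ∘ Sum.inl ∈ J.momenta k ∧ z (Sum.inr ()) * ∏ e, eval (z ∘ Sum.inl) (J.den k e) = 1) ↔
    ((z ∘ ε) ∘ Sum.inl ∈ J'.momenta k ∧
      (z ∘ ε) (Sum.inr ()) * ∏ e, eval ((z ∘ ε) ∘ Sum.inl) (J'.den k e) = 1)
  rw [h1, h2, h3]

/-! ### sums -/

theorem isSum_fequiv {I : Type} {G : I → Feynman} {J J' : Feynman} (h : Feynman.IsSum G J)
    (h' : Feynman.IsSum G J') : FEquiv J J' := by
  obtain ⟨g, ha, hc⟩ := h
  obtain ⟨g', ha', hc'⟩ := h'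
  refine ⟨g.symm.trans g', fun e => ?_, fun c => ?_⟩
  · obtain ⟨x, rfl⟩ := g.surjective e
    rw [Equiv.trans_apply, Equiv.symm_apply_apply, ha', ha]
  · rw [hc, hc']
    refine forall_congr' fun i => ?_
    have : (fun e => c ((g.symm.trans g') (g ⟨i, e⟩))) = fun e => c (g' ⟨i, e⟩) := by
      funext e
      rw [Equiv.trans_apply, Equiv.symm_apply_apply]
    rw [this]

theorem isSum_self (G : Feynman) : Feynman.IsSum (fun _ : Unit => G) G :=
  ⟨⟨fun x => x.2, fun e => ⟨(), e⟩, fun _ => rfl, fun _ => rfl⟩, fun _ => rfl,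
    fun _ => ⟨fun h _ => h, fun h => h ()⟩⟩

theorem isSum_join {I I' : Type} {G : I → Feynman} {G' : I' → Feynman} {R R' : Rooted}
    (h : Feynman.IsSum G R.toFeynman) (h' : Feynman.IsSum G' R'.toFeynman) :
    Feynman.IsSum (Sum.elim G G') (R.join R').toFeynman := by
  obtain ⟨g, ha, hc⟩ := h
  obtain ⟨g', ha', hc'⟩ := h'
  refine ⟨(Equiv.sumSigmaDistrib fun i : I ⊕ I' => (Sum.elim G G' i).E).trans
    (Equiv.sumCongr g g'), ?_, fun c => ?_⟩
  · rintro ⟨i | i, e⟩
    · exact ha ⟨i, e⟩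
    · exact ha' ⟨i, e⟩
  · rw [j_cons R R' c, hc, hc']
    constructor
    · rintro ⟨h1, h2⟩ (i | i)
      · exact h1 i
      · exact h2 i
    · exact fun h3 => ⟨fun i => h3 (Sum.inl i), fun i => h3 (Sum.inr i)⟩

theorem isSum_reindex {I I' : Type} (e : I ≃ I') {G : I' → Feynman} {J : Feynman}
    (h : Feynman.IsSum (fun i => G (e i)) J) : Feynman.IsSum G J := by
  obtain ⟨g, ha, hc⟩ := h
  have key : ∀ (i : I) (x : (G (e i)).E),
      (Equiv.sigmaCongrLeft (β := fun i' => (G i').E) e).symm ⟨e i, x⟩ = ⟨i, x⟩ := by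
    intro i x
    rw [Equiv.symm_apply_eq]
    rfl
  refine ⟨(Equiv.sigmaCongrLeft (β := fun i' => (G i').E) e).symm.trans g, ?_, fun c => ?_⟩
  · rintro ⟨i', x⟩
    obtain ⟨i, rfl⟩ := e.surjective i'
    rw [Equiv.trans_apply, key, ha]
  · rw [hc]
    constructor
    · intro h1 i'
      obtain ⟨i, rfl⟩ := e.surjective i'
      have : (fun x => c (((Equiv.sigmaCongrLeft (β := fun i' => (G i').E) e).symm.trans g)
          ⟨e i, x⟩)) = fun x => c (g ⟨i, x⟩) := by
        funext x
        rw [Equiv.trans_apply, key]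
      rw [this]
      exact h1 i
    · intro h1 i
      have h2 := h1 (e i)
      have : (fun x => c (((Equiv.sigmaCongrLeft (β := fun i' => (G i').E) e).symm.trans g)
          ⟨e i, x⟩)) = fun x => c (g ⟨i, x⟩) := by
        funext x
        rw [Equiv.trans_apply, key]
      rw [this] at h2
      exact h2

theorem isSum_partialJoin (R : ℕ → Rooted) (k : ℕ) :
    Feynman.IsSum (fun i : Fin (k + 1) => (R i).toFeynman)
      (Rooted.partialJoin R k).toFeynman := by
  induction k with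
  | zero =>
    have h := isSum_self (R 0).toFeynman
    let ε : Unit ≃ Fin 1 := Equiv.ofUnique Unit (Fin 1)
    show Feynman.IsSum (fun i : Fin 1 => (R i).toFeynman) (R 0).toFeynman
    refine isSum_reindex ε ?_
    have e : (fun i : Unit => (R ((ε i : Fin 1) : ℕ)).toFeynman) =
        fun _ : Unit => (R 0).toFeynman := by
      funext i
      have : ((ε i : Fin 1) : ℕ) = 0 := by
        have := (ε i).2
        omega
      rw [this]
    rw [e]
    exact h
  | succ k ih =>
    have h := isSum_join ih (isSum_self (R (k + 1)).toFeynman)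
    let ε : Fin (k + 1) ⊕ Unit ≃ Fin (k + 1 + 1) :=
      (Equiv.sumCongr (Equiv.refl _) (Equiv.ofUnique Unit (Fin 1))).trans finSumFinEquiv
    refine isSum_reindex ε ?_
    have e : (fun i : Fin (k + 1) ⊕ Unit => (R ((ε i : Fin (k + 1 + 1)) : ℕ)).toFeynman) =
        Sum.elim (fun i : Fin (k + 1) => (R i).toFeynman) fun _ : Unit => (R (k + 1)).toFeynman := by
      funext i
      rcases i with i | i
      · rfl
      · have : ((ε (Sum.inr i) : Fin (k + 1 + 1)) : ℕ) = k + 1 := by
          simp [ε]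
        rw [this]
        rfl
    rw [e]
    exact h

theorem isSum_power (R : ℕ → Rooted) (k n : ℕ) :
    Feynman.IsSum (fun i : Fin (n + 1) × Fin (k + 1) => (R i.2).toFeynman)
      ((Rooted.partialJoin R k).power n).toFeynman := by
  induction n with
  | zero =>
    let ε : Fin (k + 1) ≃ Fin 1 × Fin (k + 1) := (Equiv.uniqueProd (Fin (k + 1)) (Fin 1)).symm
    exact isSum_reindex (G := fun i : Fin 1 × Fin (k + 1) => (R i.2).toFeynman) ε
      (isSum_partialJoin R k)
  | succ n ih =>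
    have h := isSum_join ih (isSum_partialJoin R k)
    let ε : (Fin (n + 1) × Fin (k + 1)) ⊕ Fin (k + 1) ≃ Fin (n + 1 + 1) × Fin (k + 1) :=
      (Equiv.sumCongr (Equiv.refl _) (Equiv.uniqueProd (Fin (k + 1)) (Fin 1)).symm).trans
        ((Equiv.sumProdDistrib (Fin (n + 1)) (Fin 1) (Fin (k + 1))).symm.trans
          (Equiv.prodCongr finSumFinEquiv (Equiv.refl _)))
    refine isSum_reindex ε ?_
    have e : (fun i : (Fin (n + 1) × Fin (k + 1)) ⊕ Fin (k + 1) => (R (ε i).2).toFeynman) =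
        Sum.elim (fun i : Fin (n + 1) × Fin (k + 1) => (R i.2).toFeynman)
          fun i : Fin (k + 1) => (R i).toFeynman := by
      funext i
      rcases i with i | i <;> rfl
    rw [e]
    exact h

/-- A choice of base vertices. -/
theorem exists_roots (H : ℕ → Feynman) (hH : ∀ k, (H k).Irreducible) :
    ∃ R : ℕ → Rooted, ∀ k, (R k).toFeynman = H k := by
  choose r hr using fun k => (hH k).connected
  exact ⟨fun k => { H k with root := r k }, fun _ => rfl⟩

theorem sum_exists (H : ℕ → Feynman) (hH : ∀ k, (H k).Irreducible) (n k : ℕ) :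
    ∃ G : Feynman, G.Irreducible ∧
      Feynman.IsSum (fun i : Fin (n + 1) × Fin (k + 1) => H i.2) G := by
  obtain ⟨R, hR⟩ := exists_roots H hH
  refine ⟨((Rooted.partialJoin R k).power n).toFeynman,
    power_irr _ (partialJoin_irr R (fun k => by rw [hR]; exact hH k) k) n, ?_⟩
  have h := isSum_power R k n
  simp only [hR] at h
  exact h

end

end Pool.Agent.Lib.MP_ae0f86_nt.F
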