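import Pool.Agent.Lib.MP_ae0f86_nt.F.J.sum
import Pool.Agent.Lib.MP_ae0f86_nt.S.P.rk

/-!
# MP_ae0f86_nt, project FS: the top cohomology of sums of graphs
-/

open CategoryTheory CategoryTheory.Limits MvPolynomial Opposite MonoidalCategory

universe v u

namespace Pool.Agent.Lib.MP_ae0f86_nt.F

noncomputable section

attribute [local instance] CategoryTheory.Abelian.hasFiniteBiproducts

variable {A : Type u} [Category.{v} A] [Abelian A] [MonoidalCategory A]

theorem top_fequiv (T : CohTheory QBar A) {J J' : Feynman} (h : FEquiv J J') :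
    Nonempty (J.top T ≅ J'.top T) := by
  obtain ⟨hiso⟩ := fequiv_iso (k := QBar) h
  unfold Feynman.top
  rw [fequiv_loops h]
  exact ⟨(T.h (4 * J'.loops)).mapIso hiso.symm.op⟩

/-- Isomorphic graphs are sums of each other. -/
theorem isSum_of_iso {G G' : Feynman} (h : G.Isomorphic G') :
    Feynman.IsSum (fun _ : Unit => G') G := by
  obtain ⟨f, g, hs, ht, ha⟩ := h
  have key : ∀ (t : G.E → G.V) (t' : G'.E → G'.V), (∀ e, t' (g e) = f (t e)) →
      ∀ (c : G.E → ℚ) (v : G.V), (∑ e', if t' e' = f v then c (g.symm e') else 0) =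
        ∑ e, if t e = v then c e else 0 := by
    intro t t' h c v
    rw [← Equiv.sum_comp g]
    refine Finset.sum_congr rfl fun e _ => ?_
    rw [Equiv.symm_apply_apply]
    refine if_congr ?_ rfl rfl
    rw [h e]
    exact f.injective.eq_iff
  refine ⟨⟨fun x => g.symm x.2, fun e => ⟨(), g e⟩, fun x => ?_, fun e => ?_⟩, fun x => ?_,
    fun c => ⟨fun h _ => ?_, fun h => ?_⟩⟩
  · rcases x with ⟨⟨⟩, x⟩
    show (⟨(), g (g.symm x)⟩ : Σ _ : Unit, G'.E) = ⟨(), x⟩
    rw [Equiv.apply_symm_apply]
  · exact g.symm_apply_apply e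
  · show G.a (g.symm x.2) = G'.a x.2
    rw [← ha, Equiv.apply_symm_apply]
  · intro v'
    obtain ⟨v, rfl⟩ := f.surjective v'
    show (∑ e', if G'.tgt e' = f v then c (g.symm e') else 0) =
      ∑ e', if G'.src e' = f v then c (g.symm e') else 0
    rw [key _ _ ht, key _ _ hs]
    exact h v
  · intro v
    have h1 : (∑ e', if G'.tgt e' = f v then c (g.symm e') else 0) =
      ∑ e', if G'.src e' = f v then c (g.symm e') else 0 := h () (f v)
    rw [key _ _ ht, key _ _ hs] at h1
    exact h1

theorem fequiv_of_isSum {G G' : Feynman} (h : Feynman.IsSum (fun _ : Unit => G') G) :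
    FEquiv G' G := isSum_fequiv (isSum_self G') h

section

variable [MonoidalPreadditive A] [SymmetricCategory A]

/-- The top cohomology of the sum of `n + 1` copies of `R 0`, ..., `R k`. -/
theorem top_sum (T : CohTheoryL QBar A) (hK : T.toCohTheory.KunnethFormula) (R : ℕ → Rooted)
    (n k : ℕ) {G : Feynman}
    (h : Feynman.IsSum (fun i : Fin (n + 1) × Fin (k + 1) => (R i.2).toFeynman) G) :
    Nonempty (G.top T.toCohTheory ≅
      tpow ((Rooted.partialJoin R k).top T.toCohTheory) (n + 1)) := by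
  obtain ⟨a⟩ := top_fequiv T.toCohTheory (isSum_fequiv h (isSum_power R k n))
  obtain ⟨b⟩ := main_jpow T hK (Rooted.partialJoin R k) n
  exact ⟨a ≪≫ b⟩

/-- The rank of the top cohomology of the join of `R 0`, ..., `R k`. -/
theorem rank_partialJoin (T : CohTheoryL QBar A) (hK : T.toCohTheory.KunnethFormula)
    (HB : A ⥤ ModuleCat.{0} ℚ) [FibreFunctor HB] (R : ℕ → Rooted) (k : ℕ) :
    Module.finrank ℚ (HB.obj ((Rooted.partialJoin R k).top T.toCohTheory)) =
      ∏ j ∈ Finset.range (k + 1),
        Module.finrank ℚ (HB.obj ((R j).top T.toCohTheory)) := by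
  have hiso : ∀ {X Y : A}, (X ≅ Y) → Module.finrank ℚ (HB.obj X) = Module.finrank ℚ (HB.obj Y) :=
    fun i => LinearEquiv.finrank_eq (HB.mapIso i).toLinearEquiv
  induction k with
  | zero => rw [Finset.prod_range_one]; rfl
  | succ k ih =>
    obtain ⟨a⟩ := main_jtop T hK (Rooted.partialJoin R k) (R (k + 1))
    rw [Finset.prod_range_succ, ← ih, ← rk_tensor]
    exact hiso a

end

end

end Pool.Agent.Lib.MP_ae0f86_nt.F
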